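import Pool.Agent.Hhelper76.CL.Defs
import Pool.Agent.Hhelper85.CZ.Param

/-!
# CL module I (Forms): the classes as pairs `(a, β)`; inversion of classes

PAPER PROOF. Adapt `Pool/Agent/Hhelper85/CZ/Param.lean` (helper9, landed): there, for each class `A`,
`a` is the minimal norm in the class, `J = ℤ a + ℤ (ω - b)` an ideal of norm `a` in the class `A⁻¹`,
`ω` FIXED (choose it once for `K`), `ω² = tω - q0`, `D = 4 q0 - t²`, and the norm of the ideal
attached to `(m, n)` is `a ((m + nθ)² + n² D/(4a²))` with `θ = (t - 2b)/(2a)`. Replace `b` by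
`b + a k` (allowed: the same `J`; it shifts `θ` by an integer) so that `β := t - 2b` satisfies
`|β| ≤ a`. `4a ∣ D + β²`: `(D + β²)/(4a) = a(θ² + D/(4a²))` is the norm of the ideal attached to
`(0, 1)`. Injectivity: `(a, β)` determines `b = (t - β)/2`, hence `J`, hence its class `A⁻¹`.
`a = 1` gives an ideal of norm 1 in the class, so `A = 1`.
`rCl_inv`: `I ↦ I'` with `I I' = span {N(I)}` is a bijection between the ideals of norm `n` in the
class `A` and those in the class `A⁻¹` (its inverse is the same construction; `N(I)² = N(I) N(I')`,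
so `N(I') = n`).
-/

open scoped NumberField nonZeroDivisors
open Pool.Hhelper85.CZ

namespace Pool.Hhelper76.CL

/-- `class_param` with a fixed `ω`, a reduced middle coefficient, and the lattice `J`. -/
theorem class_param' (K : Type) [Field K] [NumberField K] (h2 : Module.finrank ℚ K = 2)
    {ω : 𝓞 K} {t q : ℤ} (hspan : ∀ x : 𝓞 K, ∃ m n : ℤ, x = m + n * ω)
    (hind : ∀ m n : ℤ, (m : 𝓞 K) + n * ω = 0 → m = 0 ∧ n = 0)
    (hnorm : ∀ m n : ℤ, Algebra.norm ℤ ((m : 𝓞 K) + n * ω) = m ^ 2 + t * m * n + q * n ^ 2)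
    (hD4 : 4 < 4 * q - t ^ 2) (A : ClassGroup (𝓞 K)) :
    ∃ (a : ℕ) (b : ℤ) (J : Ideal (𝓞 K)) (hJ : J ∈ (Ideal (𝓞 K))⁰)
      (e : {p : ℤ × ℤ // Half p} ≃ {I : (Ideal (𝓞 K))⁰ // ClassGroup.mk0 I = A}),
      1 ≤ a ∧ (a : ℝ) ≤ 2 / Real.pi * Real.sqrt |(NumberField.discr K : ℝ)| ∧
      ClassGroup.mk0 ⟨J, hJ⟩ = A⁻¹ ∧ Ideal.absNorm J = a ∧
      (∀ I : (Ideal (𝓞 K))⁰, ClassGroup.mk0 I = A → a ≤ Ideal.absNorm (I : Ideal (𝓞 K))) ∧
      (∀ x, x ∈ J ↔ ∃ m n : ℤ, x = ((m * a - n * b : ℤ) : 𝓞 K) + (n : 𝓞 K) * ω) ∧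
      |t - 2 * b| ≤ a ∧
      ∀ p : {p : ℤ × ℤ // Half p}, (Ideal.absNorm ((e p).1 : Ideal (𝓞 K)) : ℝ) =
        a * (((p.1.1 : ℝ) + p.1.2 * (((t - 2 * b : ℤ) : ℝ) / (2 * a))) ^ 2 +
          (p.1.2 : ℝ) ^ 2 * (((4 * q - t ^ 2 : ℤ) : ℝ) / (4 * (a : ℝ) ^ 2))) := by
  classical
  obtain ⟨a, J, hJ, ha, hbound, hJA, hJa, haJ, hmin⟩ := exists_min_ideal K h2 A
  have hdvd : ∀ g : ℤ, (g : 𝓞 K) ∈ J → (a : ℤ) ∣ g :=
    fun g hg => int_mem K h2 A hJ ha hJA hJa haJ hmin hg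
  obtain ⟨b₀, hb₀⟩ := exists_int_congr K ha hJa hdvd ω
  have haZ : (a : ℤ) ≠ 0 := by omega
  have haZ' : (0 : ℤ) < 2 * a := by omega
  -- reduction of the middle coefficient
  obtain ⟨b, hb, hβ⟩ : ∃ b : ℤ, ω - b ∈ J ∧ |t - 2 * b| ≤ a := by
    refine ⟨b₀ + a * ((t - 2 * b₀ + a) / (2 * a)), ?_, ?_⟩
    · have h1 : ω - ((b₀ + a * ((t - 2 * b₀ + a) / (2 * a)) : ℤ) : 𝓞 K) =
          (ω - b₀) - (a : 𝓞 K) * (((t - 2 * b₀ + a) / (2 * a) : ℤ) : 𝓞 K) := by
        push_cast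
        ring
      rw [h1]
      exact J.sub_mem hb₀ (J.mul_mem_right _ haJ)
    · have h1 := Int.emod_add_mul_ediv (t - 2 * b₀ + a) (2 * a)
      have h3 := Int.emod_nonneg (t - 2 * b₀ + a) haZ'.ne'
      have h4 := Int.emod_lt_of_pos (t - 2 * b₀ + a) haZ'
      rw [abs_le]
      constructor
      · nlinarith
      · nlinarith
  -- the element attached to a lattice point
  let α : ℤ × ℤ → 𝓞 K := fun p => ((p.1 * a - p.2 * b : ℤ) : 𝓞 K) + (p.2 : 𝓞 K) * ω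
  have hα_mem : ∀ p, α p ∈ J := by
    intro p
    have h1 : α p = (a : 𝓞 K) * (p.1 : 𝓞 K) + (ω - b) * (p.2 : 𝓞 K) := by
      simp only [α]
      push_cast
      ring
    rw [h1]
    exact J.add_mem (J.mul_mem_right _ haJ) (J.mul_mem_right _ hb)
  have hα_zero : ∀ p, α p = 0 → p = 0 := by
    intro p hp
    obtain ⟨h1, h3⟩ := hind _ _ hp
    rw [h3, zero_mul, sub_zero] at h1
    exact Prod.ext ((mul_eq_zero.mp h1).resolve_right haZ) h3
  have hα_neg : ∀ p, α (-p) = -α p := by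
    intro p
    simp only [α, Prod.fst_neg, Prod.snd_neg]
    push_cast
    ring
  have hα_inj : Function.Injective α := by
    intro p p' h
    have h1 : α (p - p') = 0 := by
      have h3 : α (p - p') = α p - α p' := by
        simp only [α, Prod.fst_sub, Prod.snd_sub]
        push_cast
        ring
      rw [h3, h, sub_self]
    exact sub_eq_zero.mp (hα_zero _ h1)
  have hα_surj : ∀ x ∈ J, ∃ p, α p = x := by
    intro x hx
    obtain ⟨m, n, rfl⟩ := hspan x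
    have h1 : ((m + n * b : ℤ) : 𝓞 K) ∈ J := by
      have h3 : ((m + n * b : ℤ) : 𝓞 K) = ((m : 𝓞 K) + n * ω) - (ω - b) * (n : 𝓞 K) := by
        push_cast
        ring
      rw [h3]
      exact J.sub_mem hx (J.mul_mem_right _ hb)
    obtain ⟨c, hc⟩ := hdvd _ h1
    refine ⟨(c, n), ?_⟩
    simp only [α]
    have h3 : c * (a : ℤ) - n * b = m := by linarith
    rw [h3]
  have hα_norm : ∀ p, ((Ideal.absNorm (Ideal.span {α p}) : ℕ) : ℝ) =
      (a : ℝ) * (a * (((p.1 : ℝ) + p.2 * (((t - 2 * b : ℤ) : ℝ) / (2 * a))) ^ 2 +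
          (p.2 : ℝ) ^ 2 * (((4 * q - t ^ 2 : ℤ) : ℝ) / (4 * (a : ℝ) ^ 2)))) := by
    intro p
    have haR : (a : ℝ) ≠ 0 := by exact_mod_cast haZ
    rw [Ideal.absNorm_span_singleton, hnorm]
    have h1 := form_nonneg (by linarith : 0 < 4 * q - t ^ 2) (p.1 * a - p.2 * b) p.2
    have h3 : ((((p.1 * a - p.2 * b) ^ 2 + t * (p.1 * a - p.2 * b) * p.2 + q * p.2 ^ 2).natAbs :
        ℕ) : ℝ) = (((p.1 * a - p.2 * b) ^ 2 + t * (p.1 * a - p.2 * b) * p.2 + q * p.2 ^ 2 : ℤ) :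
          ℝ) := by
      rw [← Int.cast_natCast, Int.natAbs_of_nonneg h1]
    rw [h3]
    push_cast
    field_simp
    ring
  have hI : ∀ p : {p : ℤ × ℤ // Half p}, ∃ I : (Ideal (𝓞 K))⁰, ClassGroup.mk0 I = A ∧
      J * (I : Ideal (𝓞 K)) = Ideal.span {α p.1} := by
    intro p
    exact exists_cofactor K A hJ hJA (hα_mem p.1) (fun h => half_ne_zero p.2 (hα_zero _ h))
  choose I hIA hIJ using hI
  have hJ0 : J ≠ 0 := nonZeroDivisors.ne_zero hJ
  let f : {p : ℤ × ℤ // Half p} → {I : (Ideal (𝓞 K))⁰ // ClassGroup.mk0 I = A} :=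
    fun p => ⟨I p, hIA p⟩
  have hinj : Function.Injective f := by
    intro p p' h
    have h1 : I p = I p' := congrArg Subtype.val h
    have h3 : Ideal.span {α p.1} = Ideal.span {α p'.1} := by rw [← hIJ, ← hIJ, h1]
    rw [Ideal.span_singleton_eq_span_singleton] at h3
    obtain ⟨u, hu⟩ := h3
    rcases unit_pm K hspan hnorm hD4 u with h4 | h4
    · rw [h4, mul_one] at hu
      exact Subtype.ext (hα_inj hu)
    · exfalso
      rw [h4, mul_neg, mul_one, ← hα_neg] at hu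
      have h5 := hα_inj hu
      have h6 := p'.2
      rw [← h5] at h6
      exact half_not_neg p.2 h6
  have hsurj : Function.Surjective f := by
    rintro ⟨I', hI'⟩
    have h1 : ClassGroup.mk0 I' = (ClassGroup.mk0 (⟨J, hJ⟩ : (Ideal (𝓞 K))⁰))⁻¹ := by
      rw [hJA, inv_inv, hI']
    obtain ⟨x, hx0, hx⟩ := ClassGroup.mk0_eq_mk0_inv_iff.mp h1
    have hx' : J * (I' : Ideal (𝓞 K)) = Ideal.span {x} := by
      rw [← hx, mul_comm]
    have hxJ : x ∈ J := by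
      have : x ∈ J * (I' : Ideal (𝓞 K)) := by
        rw [hx']
        exact Ideal.mem_span_singleton_self x
      exact Ideal.mul_le_left this
    obtain ⟨p, hp⟩ := hα_surj x hxJ
    have hp0 : p ≠ 0 := by
      rintro rfl
      have h4 : α 0 = 0 := by simp [α]
      exact hx0 (hp.symm.trans h4)
    rcases half_or p hp0 with h4 | h4
    · refine ⟨⟨p, h4⟩, Subtype.ext (Subtype.ext ?_)⟩
      refine mul_left_cancel₀ hJ0 ?_
      rw [hx', ← hp]
      exact hIJ ⟨p, h4⟩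
    · refine ⟨⟨-p, h4⟩, Subtype.ext (Subtype.ext ?_)⟩
      refine mul_left_cancel₀ hJ0 ?_
      rw [hx', ← hp]
      refine (hIJ ⟨-p, h4⟩).trans ?_
      change Ideal.span {α (-p)} = _
      rw [hα_neg, Ideal.span_singleton_neg]
  refine ⟨a, b, J, hJ, Equiv.ofBijective f ⟨hinj, hsurj⟩, ha, hbound, hJA, hJa, hmin, ?_, hβ, ?_⟩
  · intro x
    constructor
    · intro hx
      obtain ⟨p, hp⟩ := hα_surj x hx
      exact ⟨p.1, p.2, hp.symm⟩
    · rintro ⟨m, n, rfl⟩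
      exact hα_mem (m, n)
  · intro p
    have h1 := hα_norm p.1
    rw [← hIJ p, map_mul, hJa, Nat.cast_mul] at h1
    have haR : (a : ℝ) ≠ 0 := by exact_mod_cast haZ
    exact mul_left_cancel₀ haR h1

theorem class_forms (K : Type) [Field K] [NumberField K] (h2 : Module.finrank ℚ K = 2)
    (D : ℕ) (hD4 : 4 < D) (hD : NumberField.discr K = -(D : ℤ)) :
    ∃ (a : ClassGroup (𝓞 K) → ℕ) (β : ClassGroup (𝓞 K) → ℤ)
      (e : ∀ A, {p : ℤ × ℤ // Half p} ≃ {I : (Ideal (𝓞 K))⁰ // ClassGroup.mk0 I = A}),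
      Function.Injective (fun A => (a A, β A)) ∧
      ∀ A, 1 ≤ a A ∧ |β A| ≤ a A ∧ (a A : ℝ) ≤ 2 / Real.pi * Real.sqrt D ∧
        (a A = 1 → A = 1) ∧ (a 1 = 1) ∧ (4 * (a A : ℤ)) ∣ ((D : ℤ) + β A ^ 2) ∧
        ∀ p : {p : ℤ × ℤ // Half p}, (Ideal.absNorm ((e A p).1 : Ideal (𝓞 K)) : ℝ) =
          a A * (((p.1.1 : ℝ) + p.1.2 * ((β A : ℝ) / (2 * a A))) ^ 2 +
            (p.1.2 : ℝ) ^ 2 * ((D : ℝ) / (4 * (a A : ℝ) ^ 2))) := by
  classical
  obtain ⟨ω, t, q, hspan, hind, hnorm, hdisc⟩ := exists_omega K h2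
  have hDq : (4 * q - t ^ 2 : ℤ) = (D : ℤ) := by
    rw [hdisc] at hD
    linarith
  have hD4' : 4 < 4 * q - t ^ 2 := by
    rw [hDq]
    exact_mod_cast hD4
  have habs : |(NumberField.discr K : ℝ)| = (D : ℝ) := by
    rw [hD]
    push_cast
    rw [abs_neg, abs_of_nonneg (Nat.cast_nonneg _)]
  have hmain := class_param' K h2 hspan hind hnorm hD4'
  choose a b J hJ e ha hbound hJA hJa hmin hmem hβ hval using hmain
  refine ⟨a, fun A => t - 2 * b A, e, ?_, ?_⟩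
  · intro A A' h
    simp only [Prod.mk.injEq] at h
    obtain ⟨haa, hbb⟩ := h
    have hb : b A = b A' := by linarith
    have hJJ : J A = J A' := by
      ext x
      rw [hmem, hmem, haa, hb]
    have h3 : A⁻¹ = A'⁻¹ := by
      rw [← hJA A, ← hJA A']
      congr 1
      exact Subtype.ext hJJ
    exact inv_injective h3
  · intro A
    refine ⟨ha A, hβ A, ?_, ?_, ?_, ?_, ?_⟩
    · have := hbound A
      rwa [habs] at this
    · intro h1
      have h3 := hJa A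
      rw [h1, Ideal.absNorm_eq_one_iff] at h3
      have h4 : (⟨J A, hJ A⟩ : (Ideal (𝓞 K))⁰) = 1 :=
        Subtype.ext (h3.trans Ideal.one_eq_top.symm)
      have h5 := hJA A
      rw [h4, map_one] at h5
      exact (inv_eq_one.mp h5.symm)
    · have h1 := hmin 1 1 (map_one _)
      have h3 : Ideal.absNorm (((1 : (Ideal (𝓞 K))⁰) : Ideal (𝓞 K))) = 1 := by
        rw [OneMemClass.coe_one, map_one]
      rw [h3] at h1
      exact le_antisymm h1 (ha 1)
    · have h1 := hval A ⟨(0, 1), Or.inl (by norm_num)⟩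
      have haR : (a A : ℝ) ≠ 0 := by
        have := ha A
        positivity
      have h3 : (((D : ℤ) + (t - 2 * b A) ^ 2 : ℤ) : ℝ) =
          ((4 * (a A : ℤ) * (Ideal.absNorm ((e A ⟨(0, 1), Or.inl (by norm_num)⟩).1 :
            Ideal (𝓞 K)) : ℤ) : ℤ) : ℝ) := by
        rw [hDq] at h1
        push_cast at h1 ⊢
        rw [h1]
        field_simp
        ring
      refine ⟨(Ideal.absNorm ((e A ⟨(0, 1), Or.inl (by norm_num)⟩).1 : Ideal (𝓞 K)) : ℤ), ?_⟩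
      exact_mod_cast h3
    · intro p
      have h1 := hval A p
      rw [hDq] at h1
      rw [h1]
      push_cast
      rfl

/-- The conjugate ideal: `I I' = (N I)`. -/
theorem exists_conj (K : Type) [Field K] [NumberField K] (I : (Ideal (𝓞 K))⁰) :
    ∃ I' : (Ideal (𝓞 K))⁰, ClassGroup.mk0 I' = (ClassGroup.mk0 I)⁻¹ ∧
      (I : Ideal (𝓞 K)) * (I' : Ideal (𝓞 K)) =
        Ideal.span {((Ideal.absNorm (I : Ideal (𝓞 K)) : ℕ) : 𝓞 K)} := by
  have h0 : ((Ideal.absNorm (I : Ideal (𝓞 K)) : ℕ) : 𝓞 K) ≠ 0 :=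
    Nat.cast_ne_zero.mpr (Ideal.absNorm_pos_of_nonZeroDivisors I).ne'
  exact exists_cofactor K (ClassGroup.mk0 I)⁻¹ I.2 (by rw [inv_inv]) (Ideal.absNorm_mem _) h0

theorem absNorm_conj (K : Type) [Field K] [NumberField K] (h2 : Module.finrank ℚ K = 2)
    {I I' : (Ideal (𝓞 K))⁰} (h : (I : Ideal (𝓞 K)) * (I' : Ideal (𝓞 K)) =
        Ideal.span {((Ideal.absNorm (I : Ideal (𝓞 K)) : ℕ) : 𝓞 K)}) :
    Ideal.absNorm (I' : Ideal (𝓞 K)) = Ideal.absNorm (I : Ideal (𝓞 K)) := by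
  have hpos := Ideal.absNorm_pos_of_nonZeroDivisors I
  set N : ℕ := Ideal.absNorm (I : Ideal (𝓞 K)) with hN
  have h1 := congrArg Ideal.absNorm h
  rw [map_mul, ← hN, Ideal.absNorm_span_singleton] at h1
  have h3 : Algebra.norm ℤ (N : 𝓞 K) = (N : ℤ) ^ 2 := by
    have := Algebra.norm_algebraMap (S := 𝓞 K) (N : ℤ)
    rw [NumberField.RingOfIntegers.rank, h2] at this
    simpa using this
  rw [h3, Int.natAbs_pow, Int.natAbs_natCast, sq] at h1
  exact Nat.eq_of_mul_eq_mul_left hpos h1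

/-- Ideals of norm `n` in the classes `A` and `A⁻¹` correspond. -/
theorem exists_inv_equiv (K : Type) [Field K] [NumberField K] (h2 : Module.finrank ℚ K = 2)
    (A : ClassGroup (𝓞 K)) :
    ∃ f : {I : (Ideal (𝓞 K))⁰ // ClassGroup.mk0 I = A} ≃
        {I : (Ideal (𝓞 K))⁰ // ClassGroup.mk0 I = A⁻¹},
      ∀ I, Ideal.absNorm ((f I).1 : Ideal (𝓞 K)) = Ideal.absNorm (I.1 : Ideal (𝓞 K)) := by
  classical
  choose c hc1 hc2 using exists_conj K
  have hcN : ∀ I, Ideal.absNorm (c I : Ideal (𝓞 K)) = Ideal.absNorm (I : Ideal (𝓞 K)) :=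
    fun I => absNorm_conj K h2 (hc2 I)
  have hcc : ∀ I, c (c I) = I := by
    intro I
    have h1 := hc2 (c I)
    rw [hcN, ← hc2 I, mul_comm (I : Ideal (𝓞 K))] at h1
    exact Subtype.ext (mul_left_cancel₀ (nonZeroDivisors.ne_zero (c I).2) h1)
  refine ⟨⟨fun I => ⟨c I.1, by rw [hc1, I.2]⟩, fun I => ⟨c I.1, by rw [hc1, I.2, inv_inv]⟩,
    fun I => Subtype.ext (hcc I.1), fun I => Subtype.ext (hcc I.1)⟩, fun I => hcN I.1⟩

end Pool.Hhelper76.CL
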