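import Pool.Agent.Hhelper76.CL.Defs

/-!
# CL module B (Bounds): bounds for the class functions `R`, `W`

PAPER PROOF. Put `x = exp(u + iα)`, `σ = cos α > 0`: `Re x = σ e^u`, `Re (1/x) = σ e^{-u}`, so
`‖term θ y x (n,k)‖ = exp(-π y σ (e^u n² + e^{-u} k²)) ≤ exp(-2 π y σ |n k|)`.
Write `Q(w) = ∑_{k≥1} exp(-π w k²)` for `w > 0`: `Q(w) ≤ (1/2) w^{-1/2}` (compare with
`∫_0^∞ exp(-π w t²) dt`), also `Q(w) ≤ C exp(-π w)` for `w ≥ 1/8`, say.
Let `E(x) = 2 ∑_{n≥1} exp(-π y x n²)` (terms with `k = 0`), `E(1/x)` the terms with `n = 0`. Then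
`S = 1 + E(x) + E(1/x) + (terms with nk ≠ 0)`, so
`R - W = (√y (1 + E(x) + E(1/x)) - cor) / 2` does not depend on `θ` (`Z_indep`).
`Z_bound`: by the symmetry `u ↦ -u, α ↦ -α` (use `S θ y x⁻¹ = S θ y x`-type symmetry, or just treat
both signs) let `u ≥ 0`. First bound:
`‖R - W - √y/2‖ ≤ (√y ‖E(x)‖ + √y ‖E(1/x)‖ + e^{u/2}) / 2 ≤ (3/2) σ^{-1/2} e^{u/2}`.
Second bound: by the one-dimensional theta equation (`Complex.tsum_exp_neg_mul_int_sq`)
`√y (1 + E(1/x)) = x^{1/2} (1 + G)`, `G = 2 ∑_{m≥1} exp(-π m² x / y)`, `‖G‖ ≤ (σ e^u / y)^{-1/2}`;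
so for `u > 0` `R - W = (√y E(x) + x^{1/2} G) / 2`, norm `≤ σ^{-1/2} (e^{-u/2} + √y) / 2`, and
`‖R - W - √y/2‖ ≤ C σ^{-1/2} √y` as `y ≥ 1/4`. (`x^{1/2} = exp((u+iα)/2)`.)
`W_bound`: `∑_{n,k ≠ 0} exp(-κ |nk|) ≤ 4 ∑_{n,k ≥ 1} exp(-κ n k) ≤ C (1 + κ^{-2})`, `κ = 2 π y σ ≥ σ`.
`W_decay` (`α = 0`): `exp(-π y (e^u n² + e^{-u} k²))`, `y ≥ 1/4`, `u ≥ 0`:
sum over `k`: `≤ 1 + 2 e^{u/2}`, sum over `n ≠ 0`: `≤ C exp(-(π/4) e^u)`; total
`≤ C exp(-e^u / 2)`.
Continuity of `u ↦ S θ y (cexp (u + α I))`: dominated locally uniformly (`continuous_tsum` on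
bounded intervals / `continuousOn_tsum`).
-/

open Complex MeasureTheory

namespace Pool.Hhelper76.CL

namespace Bd

theorem hasSum_abs {s : ℝ} (hs : 0 < s) :
    HasSum (fun n : ℤ => Real.exp (-(s * |(n : ℝ)|)))
      ((1 - Real.exp (-s))⁻¹ + Real.exp (-s) * (1 - Real.exp (-s))⁻¹) := by
  have hr : Real.exp (-s) < 1 := by
    rw [Real.exp_lt_one_iff]; linarith
  have h0 : 0 ≤ Real.exp (-s) := (Real.exp_pos _).le
  have hg := hasSum_geometric_of_lt_one h0 hr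
  refine HasSum.of_nat_of_neg_add_one ?_ ?_
  · refine hg.congr_fun ?_ |> fun h => h
    intro n
    rw [← Real.exp_nat_mul]
    congr 1
    simp
    ring
  · refine (hg.mul_left (Real.exp (-s))).congr_fun ?_ |> fun h => h
    intro n
    rw [← Real.exp_nat_mul, ← Real.exp_add]
    congr 1
    push_cast
    rw [abs_neg, abs_of_nonneg (by positivity)]
    ring

theorem geom_le {s : ℝ} (hs : 0 < s) :
    Real.exp (-s) * (1 - Real.exp (-s))⁻¹ ≤ 1 / s := by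
  have hr : Real.exp (-s) < 1 := by
    rw [Real.exp_lt_one_iff]; linarith
  have h1 : 0 < 1 - Real.exp (-s) := by linarith
  rw [← div_eq_mul_inv, div_le_div_iff₀ h1 hs]
  have h2 := Real.add_one_le_exp s
  have h3 : Real.exp (-s) * Real.exp s = 1 := by rw [← Real.exp_add]; simp
  have h4 := Real.exp_pos (-s)
  nlinarith

theorem summable_abs {s : ℝ} (hs : 0 < s) :
    Summable (fun n : ℤ => Real.exp (-(s * |(n : ℝ)|))) := (hasSum_abs hs).summable

theorem tsum_abs_le {s : ℝ} (hs : 0 < s) :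
    ∑' n : ℤ, Real.exp (-(s * |(n : ℝ)|)) ≤ 1 + 2 / s := by
  rw [(hasSum_abs hs).tsum_eq]
  have hr : Real.exp (-s) < 1 := by
    rw [Real.exp_lt_one_iff]; linarith
  have h1 : 0 < 1 - Real.exp (-s) := by linarith
  have h2 := geom_le hs
  have h3 : (1 - Real.exp (-s))⁻¹ = 1 + Real.exp (-s) * (1 - Real.exp (-s))⁻¹ := by
    field_simp; ring
  have : 2 / s = 1 / s + 1 / s := by ring
  linarith

theorem hasSum_abs_ne {s : ℝ} (hs : 0 < s) :
    HasSum (fun n : ℤ => if n = 0 then 0 else Real.exp (-(s * |(n : ℝ)|)))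
      (2 * (Real.exp (-s) * (1 - Real.exp (-s))⁻¹)) := by
  have h := hasSum_ite_sub_hasSum (hasSum_abs hs) 0
  have hr : Real.exp (-s) < 1 := by
    rw [Real.exp_lt_one_iff]; linarith
  have h1 : 0 < 1 - Real.exp (-s) := by linarith
  have e : ((1 - Real.exp (-s))⁻¹ + Real.exp (-s) * (1 - Real.exp (-s))⁻¹) -
      Real.exp (-(s * |((0 : ℤ) : ℝ)|)) = 2 * (Real.exp (-s) * (1 - Real.exp (-s))⁻¹) := by
    simp
    field_simp; ring
  rw [e] at h
  exact h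

theorem gauss_le {a : ℝ} (ha : 0 < a) (x : ℝ) :
    Real.exp (-(a * x ^ 2)) ≤ Real.exp (1 / 4) * Real.exp (-(Real.sqrt a * |x|)) := by
  rw [← Real.exp_add, Real.exp_le_exp]
  have h1 := Real.sq_sqrt ha.le
  have h2 := sq_abs x
  nlinarith [sq_nonneg (Real.sqrt a * |x| - 1 / 2)]

theorem summable_gauss {a : ℝ} (ha : 0 < a) :
    Summable (fun n : ℤ => Real.exp (-(a * (n : ℝ) ^ 2))) :=
  Summable.of_nonneg_of_le (fun _ => (Real.exp_pos _).le) (fun n => gauss_le ha n)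
    ((summable_abs (Real.sqrt_pos.2 ha)).mul_left _)

theorem summable_gauss_ne {a : ℝ} (ha : 0 < a) :
    Summable (fun n : ℤ => if n = 0 then 0 else Real.exp (-(a * (n : ℝ) ^ 2))) :=
  (hasSum_ite_sub_hasSum (summable_gauss ha).hasSum 0).summable

theorem tsum_gauss_ne_le {a : ℝ} (ha : 0 < a) :
    ∑' n : ℤ, (if n = 0 then 0 else Real.exp (-(a * (n : ℝ) ^ 2))) ≤
      2 * Real.exp (1 / 4) / Real.sqrt a := by
  have hs := Real.sqrt_pos.2 ha
  have h := hasSum_abs_ne hs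
  have h2 := h.mul_left (Real.exp (1 / 4))
  refine (Summable.tsum_le_tsum (fun n => ?_) (summable_gauss_ne ha) h2.summable).trans ?_
  · split_ifs
    · simp
    · exact gauss_le ha n
  · rw [h2.tsum_eq]
    have h3 := geom_le hs
    have h4 := Real.exp_pos (1 / 4)
    calc _ = 2 * Real.exp (1 / 4) * (Real.exp (-Real.sqrt a) * (1 - Real.exp (-Real.sqrt a))⁻¹) := by ring
      _ ≤ 2 * Real.exp (1 / 4) * (1 / Real.sqrt a) := by gcongr
      _ = _ := by ring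

theorem tsum_gauss_le {a : ℝ} (ha : 0 < a) :
    ∑' n : ℤ, Real.exp (-(a * (n : ℝ) ^ 2)) ≤ 1 + 2 * Real.exp (1 / 4) / Real.sqrt a := by
  have h := (hasSum_ite_sub_hasSum (summable_gauss ha).hasSum 0).tsum_eq
  have h2 := tsum_gauss_ne_le ha
  rw [h] at h2
  simp at h2
  simp only [one_div]
  linarith

/-- Jacobi theta function. -/
noncomputable def vth (z : ℂ) : ℂ := ∑' n : ℤ, cexp (-Real.pi * z * (n : ℂ) ^ 2)

theorem norm_vth_term (z : ℂ) (n : ℤ) :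
    ‖cexp (-Real.pi * z * (n : ℂ) ^ 2)‖ = Real.exp (-(Real.pi * z.re * (n : ℝ) ^ 2)) := by
  rw [Complex.norm_exp]
  congr 1
  have : (-(Real.pi : ℂ) * z * (n : ℂ) ^ 2) = ((-(Real.pi * (n : ℝ) ^ 2) : ℝ) : ℂ) * z := by
    push_cast; ring
  rw [this, Complex.re_ofReal_mul]
  ring

theorem summable_vth {z : ℂ} (hz : 0 < z.re) :
    Summable (fun n : ℤ => cexp (-Real.pi * z * (n : ℂ) ^ 2)) := by
  apply Summable.of_norm
  simp_rw [norm_vth_term]
  exact summable_gauss (by positivity)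

theorem norm_vth_sub_one {z : ℂ} (hz : 0 < z.re) :
    ‖vth z - 1‖ ≤ 2 / Real.sqrt z.re := by
  have h := (hasSum_ite_sub_hasSum (summable_vth hz).hasSum 0)
  have e : vth z - 1 = ∑' n : ℤ, (if n = 0 then 0 else cexp (-Real.pi * z * (n : ℂ) ^ 2)) := by
    rw [h.tsum_eq]
    simp [vth]
  rw [e]
  have hp : 0 < Real.pi * z.re := by positivity
  have hn : ∀ n : ℤ, ‖(if n = 0 then 0 else cexp (-Real.pi * z * (n : ℂ) ^ 2))‖ =
      if n = 0 then 0 else Real.exp (-(Real.pi * z.re * (n : ℝ) ^ 2)) := by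
    intro n
    split_ifs
    · simp
    · exact norm_vth_term z n
  have hsum : Summable (fun n : ℤ => ‖(if n = 0 then 0 else cexp (-Real.pi * z * (n : ℂ) ^ 2))‖) := by
    simp_rw [hn]
    exact summable_gauss_ne hp
  refine (norm_tsum_le_tsum_norm hsum).trans ?_
  simp_rw [hn]
  refine (tsum_gauss_ne_le hp).trans ?_
  rw [Real.sqrt_mul Real.pi_pos.le, mul_div_assoc]
  have h1 : Real.exp (1 / 4) ≤ Real.sqrt Real.pi := by
    apply Real.le_sqrt_of_sq_le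
    rw [← Real.exp_nat_mul]
    have h2 : Real.exp ((2 : ℕ) * (1 / 4 : ℝ)) ≤ Real.exp 1 := by
      rw [Real.exp_le_exp]; norm_num
    have h3 := Real.exp_one_lt_d9
    have h4 := Real.pi_gt_three
    linarith
  have hs : 0 < Real.sqrt z.re := Real.sqrt_pos.2 hz
  have hs2 : 0 < Real.sqrt Real.pi := Real.sqrt_pos.2 Real.pi_pos
  have : Real.exp (1 / 4) / (Real.sqrt Real.pi * Real.sqrt z.re) ≤ 1 / Real.sqrt z.re := by
    rw [div_le_div_iff₀ (by positivity) hs]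
    nlinarith
  calc _ ≤ 2 * (1 / Real.sqrt z.re) := by gcongr
    _ = _ := by ring


/-! ### Two dimensional sums -/

theorem re_x (α u : ℝ) : (cexp (u + α * I)).re = Real.exp u * Real.cos α := by
  rw [Complex.exp_re]; simp

theorem x_inv (α u : ℝ) : (cexp (u + α * I))⁻¹ = cexp (((-u : ℝ) : ℂ) + ((-α : ℝ) : ℂ) * I) := by
  rw [← Complex.exp_neg]; congr 1; push_cast; ring

theorem re_x_inv (α u : ℝ) : ((cexp (u + α * I))⁻¹).re = Real.exp (-u) * Real.cos α := by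
  rw [x_inv, re_x, Real.cos_neg]

theorem norm_term (θ y α u : ℝ) (p : ℤ × ℤ) :
    ‖term θ y (cexp (u + α * I)) p‖ =
      Real.exp (-(Real.pi * y * Real.cos α * Real.exp u * (p.1 : ℝ) ^ 2)) *
        Real.exp (-(Real.pi * y * Real.cos α * Real.exp (-u) * (p.2 : ℝ) ^ 2)) := by
  unfold term
  rw [norm_mul]
  have h1 : ‖cexp (2 * Real.pi * I * ((p.1 : ℂ) * (p.2 : ℂ) * (θ : ℂ)))‖ = 1 := by
    have : (2 * Real.pi * I * ((p.1 : ℂ) * (p.2 : ℂ) * (θ : ℂ))) =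
        ((2 * Real.pi * ((p.1 : ℝ) * (p.2 : ℝ) * θ) : ℝ) : ℂ) * I := by push_cast; ring
    rw [this, Complex.norm_exp_ofReal_mul_I]
  rw [h1, mul_one, Complex.norm_exp, ← Real.exp_add]
  congr 1
  have : (-((Real.pi * y : ℝ) : ℂ) * (cexp (u + α * I) * (p.1 : ℂ) ^ 2 + (p.2 : ℂ) ^ 2 / cexp (u + α * I))) =
      ((-(Real.pi * y * (p.1 : ℝ) ^ 2) : ℝ) : ℂ) * cexp (u + α * I) +
      ((-(Real.pi * y * (p.2 : ℝ) ^ 2) : ℝ) : ℂ) * (cexp (u + α * I))⁻¹ := by
    push_cast; ring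
  rw [this, Complex.add_re, Complex.re_ofReal_mul, Complex.re_ofReal_mul, re_x, re_x_inv]
  ring

theorem summable_two {a b : ℝ} (ha : 0 < a) (hb : 0 < b) :
    Summable (fun p : ℤ × ℤ => Real.exp (-(a * (p.1 : ℝ) ^ 2)) * Real.exp (-(b * (p.2 : ℝ) ^ 2))) :=
  (summable_gauss ha).mul_of_nonneg (summable_gauss hb) (fun _ => (Real.exp_pos _).le)
    (fun _ => (Real.exp_pos _).le)

theorem tsum_two {a b : ℝ} (ha : 0 < a) (hb : 0 < b) :
    ∑' p : ℤ × ℤ, Real.exp (-(a * (p.1 : ℝ) ^ 2)) * Real.exp (-(b * (p.2 : ℝ) ^ 2)) =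
      (∑' n : ℤ, Real.exp (-(a * (n : ℝ) ^ 2))) * (∑' n : ℤ, Real.exp (-(b * (n : ℝ) ^ 2))) :=
  (Summable.tsum_mul_tsum (summable_gauss ha) (summable_gauss hb) (summable_two ha hb)).symm

theorem cos_pos' {α : ℝ} (hα : |α| < Real.pi / 2) : 0 < Real.cos α :=
  Real.cos_pos_of_mem_Ioo ⟨by linarith [(abs_lt.1 hα).1], (abs_lt.1 hα).2⟩

theorem summable_term (θ y α u : ℝ) (hy : 0 < y) (hα : |α| < Real.pi / 2) :
    Summable (term θ y (cexp (u + α * I))) := by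
  have hc := cos_pos' hα
  apply Summable.of_norm
  have : (fun p => ‖term θ y (cexp (u + α * I)) p‖) = fun p : ℤ × ℤ =>
      Real.exp (-(Real.pi * y * Real.cos α * Real.exp u * (p.1 : ℝ) ^ 2)) *
        Real.exp (-(Real.pi * y * Real.cos α * Real.exp (-u) * (p.2 : ℝ) ^ 2)) := by
    ext p; exact norm_term θ y α u p
  rw [this]
  exact summable_two (by positivity) (by positivity)

/-- uniform bound on bounded intervals -/
theorem norm_term_le (θ y α : ℝ) (hy : 0 < y) (hα : |α| < Real.pi / 2) {B u : ℝ} (hu : |u| ≤ B)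
    (p : ℤ × ℤ) :
    ‖term θ y (cexp (u + α * I)) p‖ ≤
      Real.exp (-(Real.pi * y * Real.cos α * Real.exp (-B) * (p.1 : ℝ) ^ 2)) *
        Real.exp (-(Real.pi * y * Real.cos α * Real.exp (-B) * (p.2 : ℝ) ^ 2)) := by
  rw [norm_term]
  have hc := cos_pos' hα
  have h1 : -B ≤ u := by linarith [(abs_le.1 hu).1]
  have h2 : -B ≤ -u := by linarith [(abs_le.1 hu).2]
  gcongr

theorem continuous_term (θ y α : ℝ) (p : ℤ × ℤ) :
    Continuous (fun u : ℝ => term θ y (cexp (u + α * I)) p) := by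
  unfold term
  refine Continuous.mul (Complex.continuous_exp.comp ?_) continuous_const
  refine continuous_const.mul ?_
  refine Continuous.add ?_ ?_
  · exact (Complex.continuous_exp.comp (by fun_prop)).mul continuous_const
  · exact continuous_const.div (Complex.continuous_exp.comp (by fun_prop)) (fun u => Complex.exp_ne_zero _)

/-- continuity of subsums -/
theorem continuous_sub {β : Type} (f : β → ℤ × ℤ) (hf : Function.Injective f) (θ y α : ℝ)
    (hy : 0 < y) (hα : |α| < Real.pi / 2) :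
    Continuous (fun u : ℝ => ∑' b : β, term θ y (cexp (u + α * I)) (f b)) := by
  have hc := cos_pos' hα
  rw [continuous_iff_continuousAt]
  intro u₀
  have hcont : ContinuousOn (fun u : ℝ => ∑' b : β, term θ y (cexp (u + α * I)) (f b))
      (Set.Icc (-(|u₀| + 1)) (|u₀| + 1)) := by
    refine continuousOn_tsum (u := fun b : β =>
      Real.exp (-(Real.pi * y * Real.cos α * Real.exp (-(|u₀| + 1)) * ((f b).1 : ℝ) ^ 2)) *
        Real.exp (-(Real.pi * y * Real.cos α * Real.exp (-(|u₀| + 1)) * ((f b).2 : ℝ) ^ 2))) ?_ ?_ ?_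
    · intro b
      exact (continuous_term θ y α (f b)).continuousOn
    · exact (summable_two (by positivity) (by positivity)).comp_injective hf
    · intro b u hu
      exact norm_term_le θ y α hy hα (abs_le.2 ⟨hu.1, hu.2⟩) (f b)
  apply hcont.continuousAt
  apply Icc_mem_nhds
  · linarith [neg_abs_le u₀]
  · linarith [le_abs_self u₀]

end Bd

theorem continuous_S (θ y α : ℝ) (hy : 0 < y) (hα : |α| < Real.pi / 2) :
    Continuous (fun u : ℝ => S θ y (cexp (u + α * I))) :=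
  Bd.continuous_sub (fun p : ℤ × ℤ => p) Function.injective_id θ y α hy hα

theorem continuous_W (θ y α : ℝ) (hy : 0 < y) (hα : |α| < Real.pi / 2) :
    Continuous (fun u : ℝ => W θ y α u) := by
  unfold W
  exact continuous_const.mul
    (Bd.continuous_sub (fun p : {p : ℤ × ℤ // p.1 ≠ 0 ∧ p.2 ≠ 0} => p.1)
      Subtype.val_injective θ y α hy hα)

theorem measurable_R (θ y α : ℝ) (hy : 0 < y) (hα : |α| < Real.pi / 2) :
    Measurable (fun u : ℝ => R θ y α u) := by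
  unfold R cor
  refine measurable_const.mul ?_
  refine Measurable.sub ?_ ?_
  · exact measurable_const.mul (continuous_S θ y α hy hα).measurable
  · refine Measurable.ite measurableSet_Ioi ?_ ?_
    · exact (Complex.continuous_exp.comp (by fun_prop)).measurable
    · exact (Complex.continuous_exp.comp (by fun_prop)).measurable


namespace Bd

/-- the part `n k = 0` -/
theorem S_sub (θ y α u : ℝ) (hy : 0 < y) (hα : |α| < Real.pi / 2) :
    S θ y (cexp (u + α * I)) -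
      ∑' p : {p : ℤ × ℤ // p.1 ≠ 0 ∧ p.2 ≠ 0}, term θ y (cexp (u + α * I)) p.1 =
    ∑' p : ↑({p : ℤ × ℤ | p.1 ≠ 0 ∧ p.2 ≠ 0}ᶜ), term θ y (cexp (u + α * I)) p.1 := by
  have hs := summable_term θ y α u hy hα
  have h := (hs.subtype {p : ℤ × ℤ | p.1 ≠ 0 ∧ p.2 ≠ 0}).tsum_add_tsum_compl
    (hs.subtype ({p : ℤ × ℤ | p.1 ≠ 0 ∧ p.2 ≠ 0}ᶜ))
  unfold S
  rw [← h]
  exact add_sub_cancel_left _ _

theorem term_indep (θ y : ℝ) (x : ℂ) (p : ℤ × ℤ) (hp : ¬ (p.1 ≠ 0 ∧ p.2 ≠ 0)) :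
    term θ y x p = term 0 y x p := by
  unfold term
  have : (p.1 : ℂ) * (p.2 : ℂ) = 0 := by
    by_cases h : p.1 = 0
    · simp [h]
    · have h2 : p.2 = 0 := by
        by_contra h3
        exact hp ⟨h, h3⟩
      simp [h2]
  simp [this]

theorem Z_eq (θ y α u : ℝ) (hy : 0 < y) (hα : |α| < Real.pi / 2) :
    R θ y α u - W θ y α u = (1 / 2) * ((Real.sqrt y : ℂ) *
      (∑' p : ↑({p : ℤ × ℤ | p.1 ≠ 0 ∧ p.2 ≠ 0}ᶜ), term θ y (cexp (u + α * I)) p.1) - cor α u) := by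
  rw [← S_sub θ y α u hy hα]
  unfold R W
  ring

theorem compl_sum (y α u : ℝ) (hy : 0 < y) (hα : |α| < Real.pi / 2) :
    (∑' p : ↑({p : ℤ × ℤ | p.1 ≠ 0 ∧ p.2 ≠ 0}ᶜ), term 0 y (cexp (u + α * I)) p.1) =
      vth (y * cexp (u + α * I)) + vth (y / cexp (u + α * I)) - 1 := by
  set x := cexp (u + α * I) with hx
  have hc := cos_pos' hα
  have hre1 : 0 < ((y : ℂ) * x).re := by
    rw [Complex.re_ofReal_mul, hx, re_x]; positivity
  have hre2 : 0 < ((y : ℂ) / x).re := by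
    rw [div_eq_mul_inv, Complex.re_ofReal_mul, hx, re_x_inv]; positivity
  have hs := summable_term 0 y α u hy hα
  rw [← hx] at hs
  -- split as k = 0 and (n = 0, k ≠ 0)
  have key : ∀ p : ℤ × ℤ, Set.indicator ({p : ℤ × ℤ | p.1 ≠ 0 ∧ p.2 ≠ 0}ᶜ) (term 0 y x) p =
      (if p.2 = 0 then cexp (-Real.pi * (y * x) * (p.1 : ℂ) ^ 2) else 0) +
      (if p.1 = 0 then (if p.2 = 0 then 0 else cexp (-Real.pi * (y / x) * (p.2 : ℂ) ^ 2)) else 0) := by
    rintro ⟨n, k⟩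
    unfold Set.indicator term
    by_cases hk : k = 0
    · by_cases hn : n = 0
      · simp [hk, hn]
      · simp [hk, hn]
        congr 1; ring
    · by_cases hn : n = 0
      · simp [hk, hn]
        congr 1; ring
      · simp [hk, hn]
  have h1 : HasSum (fun p : ℤ × ℤ =>
      (if p.2 = 0 then cexp (-Real.pi * (y * x) * (p.1 : ℂ) ^ 2) else 0)) (vth (y * x)) := by
    have hinj : Function.Injective (fun n : ℤ => (n, (0 : ℤ))) := fun a b h => by simpa using h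
    have := (hinj.hasSum_iff (f := fun p : ℤ × ℤ =>
      (if p.2 = 0 then cexp (-Real.pi * (y * x) * (p.1 : ℂ) ^ 2) else 0)) (a := vth (y * x)) ?_).1 ?_
    · exact this
    · rintro ⟨n, k⟩ hp
      have : k ≠ 0 := by
        rintro rfl
        exact hp ⟨n, rfl⟩
      simp [this]
    · exact (summable_vth hre1).hasSum.congr_fun (fun n => by simp)
  have h2 : HasSum (fun p : ℤ × ℤ =>
      (if p.1 = 0 then (if p.2 = 0 then 0 else cexp (-Real.pi * (y / x) * (p.2 : ℂ) ^ 2)) else 0))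
      (vth (y / x) - 1) := by
    have hinj : Function.Injective (fun n : ℤ => ((0 : ℤ), n)) := fun a b h => by simpa using h
    have := (hinj.hasSum_iff (f := fun p : ℤ × ℤ =>
      (if p.1 = 0 then (if p.2 = 0 then 0 else cexp (-Real.pi * (y / x) * (p.2 : ℂ) ^ 2)) else 0))
      (a := vth (y / x) - 1) ?_).1 ?_
    · exact this
    · rintro ⟨n, k⟩ hp
      have : n ≠ 0 := by
        rintro rfl
        exact hp ⟨k, rfl⟩
      simp [this]
    · have h := (hasSum_ite_sub_hasSum (summable_vth hre2).hasSum 0)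
      have e : ∑' n : ℤ, cexp (-Real.pi * (y / x) * (n : ℂ) ^ 2) -
          cexp (-Real.pi * (y / x) * ((0 : ℤ) : ℂ) ^ 2) = vth (y / x) - 1 := by
        simp [vth]
      rw [e] at h
      exact h.congr_fun (fun n => by simp)
  rw [tsum_subtype ({p : ℤ × ℤ | p.1 ≠ 0 ∧ p.2 ≠ 0}ᶜ) (term 0 y x)]
  rw [tsum_congr key, (h1.add h2).tsum_eq]
  ring

end Bd

theorem Z_indep (θ y α u : ℝ) (hy : 0 < y) (hα : |α| < Real.pi / 2) :
    R θ y α u - W θ y α u = R 0 y α u - W 0 y α u := by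
  rw [Bd.Z_eq θ y α u hy hα, Bd.Z_eq 0 y α u hy hα]
  congr 3
  apply tsum_congr
  intro p
  exact Bd.term_indep θ y _ p.1 p.2


namespace Bd

theorem sqrt_div_exp (σ u : ℝ) (_hσ : 0 < σ) :
    Real.sqrt (Real.exp u * σ) = Real.exp (u / 2) * Real.sqrt σ := by
  rw [Real.sqrt_mul (Real.exp_pos _).le]
  congr 1
  rw [show Real.exp u = Real.exp (u / 2) ^ 2 by rw [← Real.exp_nat_mul]; congr 1; push_cast; ring]
  rw [Real.sqrt_sq (Real.exp_pos _).le]

theorem norm_cexp_half (α u : ℝ) : ‖cexp ((u + α * I) / 2)‖ = Real.exp (u / 2) := by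
  rw [Complex.norm_exp]; congr 1
  simp

theorem bound_yx (y α u : ℝ) (hy : 0 < y) (hα : |α| < Real.pi / 2) :
    ‖(Real.sqrt y : ℂ) * (vth (y * cexp (u + α * I)) - 1)‖ ≤
      2 * Real.exp (-(u / 2)) / Real.sqrt (Real.cos α) := by
  have hc := cos_pos' hα
  have hre : ((y : ℂ) * cexp (u + α * I)).re = y * (Real.exp u * Real.cos α) := by
    rw [Complex.re_ofReal_mul, re_x]
  have hpos : 0 < ((y : ℂ) * cexp (u + α * I)).re := by rw [hre]; positivity
  rw [norm_mul]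
  have h := norm_vth_sub_one hpos
  rw [hre, Real.sqrt_mul hy.le, sqrt_div_exp _ _ hc] at h
  have h1 : ‖(Real.sqrt y : ℂ)‖ = Real.sqrt y := by
    rw [Complex.norm_real, Real.norm_of_nonneg (Real.sqrt_nonneg _)]
  rw [h1]
  have hs := Real.sqrt_pos.2 hy
  have hsc := Real.sqrt_pos.2 hc
  calc _ ≤ Real.sqrt y * (2 / (Real.sqrt y * (Real.exp (u / 2) * Real.sqrt (Real.cos α)))) := by
        gcongr
    _ = _ := by
        rw [Real.exp_neg]
        field_simp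

theorem bound_ydx (y α u : ℝ) (hy : 0 < y) (hα : |α| < Real.pi / 2) :
    ‖(Real.sqrt y : ℂ) * (vth (y / cexp (u + α * I)) - 1)‖ ≤
      2 * Real.exp (u / 2) / Real.sqrt (Real.cos α) := by
  have h := bound_yx y (-α) (-u) hy (by rwa [abs_neg])
  rw [← x_inv, Real.cos_neg] at h
  rw [div_eq_mul_inv]
  refine h.trans (le_of_eq ?_)
  congr 3; ring

theorem theta_eq (y α u : ℝ) (hy : 0 < y) (hα : |α| < Real.pi / 2) :
    (Real.sqrt y : ℂ) * vth (y / cexp (u + α * I)) =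
      cexp ((u + α * I) / 2) * vth (cexp (u + α * I) / y) := by
  have hc := cos_pos' hα
  have hre2 : 0 < ((y : ℂ) / cexp (u + α * I)).re := by
    rw [div_eq_mul_inv, Complex.re_ofReal_mul, re_x_inv]; positivity
  have h := Complex.tsum_exp_neg_mul_int_sq hre2
  have hy0 : (y : ℂ) ≠ 0 := by exact_mod_cast hy.ne'
  have e1 : (y : ℂ) / cexp (u + α * I) = cexp (((Real.log y - u : ℝ) : ℂ) + ((-α : ℝ) : ℂ) * I) := by
    have : cexp ((Real.log y : ℝ) : ℂ) = y := by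
      rw [← Complex.ofReal_exp, Real.exp_log hy]
    rw [← this, ← Complex.exp_sub]
    congr 1
    push_cast; ring
  have e2 : ((y : ℂ) / cexp (u + α * I)) ^ (1 / 2 : ℂ) =
      (Real.sqrt y : ℂ) * (cexp ((u + α * I) / 2))⁻¹ := by
    rw [Complex.cpow_def_of_ne_zero (div_ne_zero hy0 (Complex.exp_ne_zero _)), e1, Complex.log_exp]
    · have : (Real.sqrt y : ℂ) = cexp (((Real.log y / 2 : ℝ)) : ℂ) := by
        rw [← Complex.ofReal_exp]
        congr 1
        rw [Real.sqrt_eq_rpow, Real.rpow_def_of_pos hy]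
        congr 1; ring
      rw [this, ← Complex.exp_neg, ← Complex.exp_add]
      congr 1; push_cast; ring
    · simp
      have := (abs_lt.1 hα).2
      linarith [Real.pi_pos]
    · simp
      have := (abs_lt.1 hα).1
      linarith [Real.pi_pos]
  have e3 : ∀ n : ℤ, -(Real.pi : ℂ) / (y / cexp (u + α * I)) * (n : ℂ) ^ 2 =
      -Real.pi * (cexp (u + α * I) / y) * (n : ℂ) ^ 2 := by
    intro n
    have := Complex.exp_ne_zero (u + α * I)
    field_simp
  unfold vth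
  rw [h, e2]
  simp_rw [e3]
  have hs : (Real.sqrt y : ℂ) ≠ 0 := by exact_mod_cast (Real.sqrt_pos.2 hy).ne'
  have := Complex.exp_ne_zero ((u + α * I) / 2)
  field_simp

theorem half (y α u : ℝ) (hy : 1 / 4 ≤ y) (hα : |α| < Real.pi / 2) (hu : 0 ≤ u) :
    ‖(Real.sqrt y : ℂ) * (vth (y * cexp (u + α * I)) + vth (y / cexp (u + α * I)) - 1) -
      cexp ((u + α * I) / 2) - (Real.sqrt y : ℂ)‖ ≤
      7 * Real.sqrt y / Real.sqrt (Real.cos α) := by
  have hy0 : 0 < y := by linarith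
  have hc := cos_pos' hα
  have hsc := Real.sqrt_pos.2 hc
  have hsc1 : Real.sqrt (Real.cos α) ≤ 1 := by
    rw [Real.sqrt_le_left (by norm_num)]
    simpa using Real.cos_le_one α
  have hs := Real.sqrt_pos.2 hy0
  have hs2 : 1 / 2 ≤ Real.sqrt y := by
    apply Real.le_sqrt_of_sq_le; norm_num; linarith
  have e : (Real.sqrt y : ℂ) * (vth (y * cexp (u + α * I)) + vth (y / cexp (u + α * I)) - 1) -
      cexp ((u + α * I) / 2) - (Real.sqrt y : ℂ) =
      (Real.sqrt y : ℂ) * (vth (y * cexp (u + α * I)) - 1) +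
      cexp ((u + α * I) / 2) * (vth (cexp (u + α * I) / y) - 1) - (Real.sqrt y : ℂ) := by
    linear_combination theta_eq y α u hy0 hα
  rw [e]
  have b1 := bound_yx y α u hy0 hα
  have hre : (cexp (u + α * I) / (y : ℂ)).re = y⁻¹ * (Real.exp u * Real.cos α) := by
    rw [div_eq_mul_inv, ← Complex.ofReal_inv, mul_comm, Complex.re_ofReal_mul, re_x]
  have hpos : 0 < (cexp (u + α * I) / (y : ℂ)).re := by rw [hre]; positivity
  have b2 : ‖cexp ((u + α * I) / 2) * (vth (cexp (u + α * I) / y) - 1)‖ ≤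
      2 * Real.sqrt y / Real.sqrt (Real.cos α) := by
    rw [norm_mul, norm_cexp_half]
    have h := norm_vth_sub_one hpos
    rw [hre, Real.sqrt_mul (by positivity), sqrt_div_exp _ _ hc, Real.sqrt_inv] at h
    calc _ ≤ Real.exp (u / 2) * (2 / ((Real.sqrt y)⁻¹ * (Real.exp (u / 2) * Real.sqrt (Real.cos α)))) := by
          gcongr
      _ = _ := by field_simp
  have b3 : ‖(Real.sqrt y : ℂ)‖ = Real.sqrt y := by
    rw [Complex.norm_real, Real.norm_of_nonneg (Real.sqrt_nonneg _)]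
  have h1 : Real.exp (-(u / 2)) ≤ 1 := by
    rw [Real.exp_le_one_iff]; linarith
  have b1' : 2 * Real.exp (-(u / 2)) / Real.sqrt (Real.cos α) ≤
      4 * Real.sqrt y / Real.sqrt (Real.cos α) := by
    gcongr ?_ / _
    linarith
  have b3' : Real.sqrt y ≤ Real.sqrt y / Real.sqrt (Real.cos α) := by
    rw [le_div_iff₀ hsc]
    nlinarith
  have n1 := norm_sub_le ((Real.sqrt y : ℂ) * (vth (y * cexp (u + α * I)) - 1) +
      cexp ((u + α * I) / 2) * (vth (cexp (u + α * I) / y) - 1)) (Real.sqrt y : ℂ)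
  have n2 := norm_add_le ((Real.sqrt y : ℂ) * (vth (y * cexp (u + α * I)) - 1))
      (cexp ((u + α * I) / 2) * (vth (cexp (u + α * I) / y) - 1))
  have : 7 * Real.sqrt y / Real.sqrt (Real.cos α) = 4 * Real.sqrt y / Real.sqrt (Real.cos α) +
      2 * Real.sqrt y / Real.sqrt (Real.cos α) + Real.sqrt y / Real.sqrt (Real.cos α) := by ring
  linarith

theorem norm_cor (α u : ℝ) : ‖cor α u‖ = Real.exp (|u| / 2) := by
  unfold cor
  split_ifs with h
  · rw [norm_cexp_half, abs_of_pos h]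
  · have : -((u + α * I) / 2) = (((-u : ℝ) : ℂ) + ((-α : ℝ) : ℂ) * I) / 2 := by push_cast; ring
    rw [this, norm_cexp_half, abs_of_nonpos (not_lt.1 h)]

theorem first (y α u : ℝ) (hy : 1 / 4 ≤ y) (hα : |α| < Real.pi / 2) :
    ‖(Real.sqrt y : ℂ) * (vth (y * cexp (u + α * I)) + vth (y / cexp (u + α * I)) - 1) -
      cor α u - (Real.sqrt y : ℂ)‖ ≤
      7 / Real.sqrt (Real.cos α) * Real.exp (|u| / 2) := by
  have hy0 : 0 < y := by linarith
  have hc := cos_pos' hα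
  have hsc := Real.sqrt_pos.2 hc
  have hsc1 : Real.sqrt (Real.cos α) ≤ 1 := by
    rw [Real.sqrt_le_left (by norm_num)]
    simpa using Real.cos_le_one α
  have e : (Real.sqrt y : ℂ) * (vth (y * cexp (u + α * I)) + vth (y / cexp (u + α * I)) - 1) -
      cor α u - (Real.sqrt y : ℂ) =
      (Real.sqrt y : ℂ) * (vth (y * cexp (u + α * I)) - 1) +
      (Real.sqrt y : ℂ) * (vth (y / cexp (u + α * I)) - 1) - cor α u := by ring
  rw [e]
  have b1 := bound_yx y α u hy0 hα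
  have b2 := bound_ydx y α u hy0 hα
  have b3 := norm_cor α u
  have h1 : Real.exp (-(u / 2)) ≤ Real.exp (|u| / 2) := by
    rw [Real.exp_le_exp]; linarith [neg_abs_le u]
  have h2 : Real.exp (u / 2) ≤ Real.exp (|u| / 2) := by
    rw [Real.exp_le_exp]; linarith [le_abs_self u]
  have b1' : 2 * Real.exp (-(u / 2)) / Real.sqrt (Real.cos α) ≤
      2 * Real.exp (|u| / 2) / Real.sqrt (Real.cos α) := by gcongr
  have b2' : 2 * Real.exp (u / 2) / Real.sqrt (Real.cos α) ≤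
      2 * Real.exp (|u| / 2) / Real.sqrt (Real.cos α) := by gcongr
  have b3' : Real.exp (|u| / 2) ≤ Real.exp (|u| / 2) / Real.sqrt (Real.cos α) := by
    rw [le_div_iff₀ hsc]
    nlinarith [Real.exp_pos (|u| / 2)]
  have n1 := norm_sub_le ((Real.sqrt y : ℂ) * (vth (y * cexp (u + α * I)) - 1) +
      (Real.sqrt y : ℂ) * (vth (y / cexp (u + α * I)) - 1)) (cor α u)
  have n2 := norm_add_le ((Real.sqrt y : ℂ) * (vth (y * cexp (u + α * I)) - 1))
      ((Real.sqrt y : ℂ) * (vth (y / cexp (u + α * I)) - 1))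
  have : 7 / Real.sqrt (Real.cos α) * Real.exp (|u| / 2) =
      2 * Real.exp (|u| / 2) / Real.sqrt (Real.cos α) + 2 * Real.exp (|u| / 2) / Real.sqrt (Real.cos α)
      + 3 * (Real.exp (|u| / 2) / Real.sqrt (Real.cos α)) := by ring
  have hp : 0 < Real.exp (|u| / 2) / Real.sqrt (Real.cos α) := by positivity
  linarith

theorem second (y α u : ℝ) (hy : 1 / 4 ≤ y) (hα : |α| < Real.pi / 2) :
    ‖(Real.sqrt y : ℂ) * (vth (y * cexp (u + α * I)) + vth (y / cexp (u + α * I)) - 1) -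
      cor α u - (Real.sqrt y : ℂ)‖ ≤
      7 * Real.sqrt y / Real.sqrt (Real.cos α) := by
  unfold cor
  split_ifs with h
  · exact half y α u hy hα h.le
  · have h2 := half y (-α) (-u) hy (by rwa [abs_neg]) (by linarith)
    rw [← x_inv, Real.cos_neg] at h2
    have e1 : (y : ℂ) * (cexp (u + α * I))⁻¹ = y / cexp (u + α * I) := by rw [div_eq_mul_inv]
    have e2 : (y : ℂ) / (cexp (u + α * I))⁻¹ = y * cexp (u + α * I) := by
      rw [div_eq_mul_inv, inv_inv]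
    have e3 : (((-u : ℝ) : ℂ) + ((-α : ℝ) : ℂ) * I) / 2 = -((u + α * I) / 2) := by push_cast; ring
    rw [e1, e2, e3] at h2
    convert h2 using 3
    ring

end Bd

theorem Z_bound : ∃ C : ℝ, 0 < C ∧ ∀ θ y α u : ℝ, 1 / 4 ≤ y → |α| < Real.pi / 2 →
    ‖R θ y α u - W θ y α u - (1 / 2) * (Real.sqrt y : ℂ)‖ ≤
      C / Real.sqrt (Real.cos α) * min (Real.exp (|u| / 2)) (Real.sqrt y) := by
  refine ⟨7, by norm_num, ?_⟩
  intro θ y α u hy hα
  have hy0 : 0 < y := by linarith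
  have hc := Bd.cos_pos' hα
  rw [Z_indep θ y α u hy0 hα, Bd.Z_eq 0 y α u hy0 hα, Bd.compl_sum y α u hy0 hα]
  have e : (1 / 2 : ℂ) * ((Real.sqrt y : ℂ) *
      (Bd.vth (y * cexp (u + α * I)) + Bd.vth (y / cexp (u + α * I)) - 1) - cor α u) -
      (1 / 2) * (Real.sqrt y : ℂ) = (1 / 2) * ((Real.sqrt y : ℂ) *
      (Bd.vth (y * cexp (u + α * I)) + Bd.vth (y / cexp (u + α * I)) - 1) - cor α u -
      (Real.sqrt y : ℂ)) := by ring
  rw [e, norm_mul]
  have hh : ‖(1 / 2 : ℂ)‖ = 1 / 2 := by norm_num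
  rw [hh]
  have h1 := Bd.first y α u hy hα
  have h2 := Bd.second y α u hy hα
  have hn := norm_nonneg ((Real.sqrt y : ℂ) *
      (Bd.vth (y * cexp (u + α * I)) + Bd.vth (y / cexp (u + α * I)) - 1) - cor α u -
      (Real.sqrt y : ℂ))
  rcases min_choice (Real.exp (|u| / 2)) (Real.sqrt y) with hm | hm
  · rw [hm]; linarith
  · rw [hm]
    have : 7 / Real.sqrt (Real.cos α) * Real.sqrt y = 7 * Real.sqrt y / Real.sqrt (Real.cos α) := by
      ring
    rw [this]; linarith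


namespace Bd

/-- norm of a subsum over `n, k ≠ 0` from a product bound -/
theorem norm_W_le (θ y α u : ℝ) (hy : 0 < y) (hα : |α| < Real.pi / 2) (f g : ℤ → ℝ)
    (hf : Summable f) (hg : Summable g) (hf0 : ∀ n, 0 ≤ f n) (hg0 : ∀ n, 0 ≤ g n)
    (h : ∀ p : ℤ × ℤ, p.1 ≠ 0 → p.2 ≠ 0 →
      ‖term θ y (cexp (u + α * I)) p‖ ≤ f p.1 * g p.2) :
    ‖W θ y α u‖ ≤ (1 / 2) * Real.sqrt y * ((∑' n, f n) * (∑' n, g n)) := by
  unfold W
  rw [norm_mul, norm_mul]
  have hh : ‖(1 / 2 : ℂ)‖ = 1 / 2 := by norm_num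
  have b3 : ‖(Real.sqrt y : ℂ)‖ = Real.sqrt y := by
    rw [Complex.norm_real, Real.norm_of_nonneg (Real.sqrt_nonneg _)]
  rw [hh, b3]
  have hfg : Summable (fun p : ℤ × ℤ => f p.1 * g p.2) := hf.mul_of_nonneg hg hf0 hg0
  have hs : Summable (fun p : {p : ℤ × ℤ // p.1 ≠ 0 ∧ p.2 ≠ 0} =>
      ‖term θ y (cexp (u + α * I)) p.1‖) :=
    (summable_term θ y α u hy hα).norm.subtype {p : ℤ × ℤ | p.1 ≠ 0 ∧ p.2 ≠ 0}
  have h1 := norm_tsum_le_tsum_norm hs
  have h2 : ∑' p : {p : ℤ × ℤ // p.1 ≠ 0 ∧ p.2 ≠ 0}, ‖term θ y (cexp (u + α * I)) p.1‖ ≤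
      ∑' p : {p : ℤ × ℤ // p.1 ≠ 0 ∧ p.2 ≠ 0}, f p.1.1 * g p.1.2 :=
    Summable.tsum_le_tsum (fun p => h p.1 p.2.1 p.2.2) hs
      (hfg.subtype {p : ℤ × ℤ | p.1 ≠ 0 ∧ p.2 ≠ 0})
  have h3 : ∑' p : {p : ℤ × ℤ // p.1 ≠ 0 ∧ p.2 ≠ 0}, f p.1.1 * g p.1.2 ≤
      ∑' p : ℤ × ℤ, f p.1 * g p.2 :=
    hfg.tsum_subtype_le _ {p : ℤ × ℤ | p.1 ≠ 0 ∧ p.2 ≠ 0}
      (fun p => mul_nonneg (hf0 _) (hg0 _))
  have h4 : ∑' p : ℤ × ℤ, f p.1 * g p.2 = (∑' n, f n) * (∑' n, g n) :=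
    (Summable.tsum_mul_tsum hf hg hfg).symm
  rw [h4] at h3
  have := Real.sqrt_nonneg y
  have h5 := (h1.trans h2).trans h3
  gcongr

theorem one_le_abs {n : ℤ} (hn : n ≠ 0) : 1 ≤ |(n : ℝ)| := by
  have : 1 ≤ |n| := Int.one_le_abs hn
  exact_mod_cast this

end Bd

theorem W_bound : ∃ C : ℝ, 0 < C ∧ ∀ θ y α u : ℝ, 1 / 4 ≤ y → |α| < Real.pi / 2 →
    ‖W θ y α u‖ ≤ C * Real.sqrt y / (Real.cos α) ^ 2 := by
  refine ⟨25 / 2, by norm_num, ?_⟩
  intro θ y α u hy hα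
  have hy0 : 0 < y := by linarith
  have hc := Bd.cos_pos' hα
  have hc1 := Real.cos_le_one α
  set σ := Real.cos α with hσ
  have hs2 : 0 < σ / 2 := by positivity
  have h := Bd.norm_W_le θ y α u hy0 hα (fun n => Real.exp (-(σ / 2 * |(n : ℝ)|)))
    (fun n => Real.exp (-(σ / 2 * |(n : ℝ)|))) (Bd.summable_abs hs2) (Bd.summable_abs hs2)
    (fun _ => (Real.exp_pos _).le) (fun _ => (Real.exp_pos _).le) ?_
  · refine h.trans ?_
    have ht := Bd.tsum_abs_le hs2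
    have ht0 : 0 ≤ ∑' n : ℤ, Real.exp (-(σ / 2 * |(n : ℝ)|)) :=
      tsum_nonneg (fun _ => (Real.exp_pos _).le)
    have h5 : ∑' n : ℤ, Real.exp (-(σ / 2 * |(n : ℝ)|)) ≤ 5 / σ := by
      refine ht.trans ?_
      have e1 : 2 / (σ / 2) = 4 / σ := by field_simp; norm_num
      have e2 : 1 ≤ 1 / σ := by rw [le_div_iff₀ hc]; linarith
      have e3 : 5 / σ = 1 / σ + 4 / σ := by ring
      rw [e1, e3]; linarith
    have hsy := Real.sqrt_nonneg y
    calc _ ≤ (1 / 2) * Real.sqrt y * ((5 / σ) * (5 / σ)) := by gcongr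
      _ = _ := by ring
  · rintro ⟨n, k⟩ hn hk
    simp only at hn hk ⊢
    rw [Bd.norm_term, ← Real.exp_add, ← Real.exp_add, Real.exp_le_exp]
    simp only
    have h1 := Bd.one_le_abs hn
    have h2 := Bd.one_le_abs hk
    have hu := Real.exp_pos u
    have hu2 := Real.exp_pos (-u)
    have hprod : Real.exp u * Real.exp (-u) = 1 := by rw [← Real.exp_add]; simp
    have hpi := Real.pi_gt_three
    -- AM-GM
    have key : 2 * (|(n : ℝ)| * |(k : ℝ)|) ≤ Real.exp u * (n : ℝ) ^ 2 + Real.exp (-u) * (k : ℝ) ^ 2 := by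
      have e1 : Real.exp (u / 2) * Real.exp (-u / 2) = 1 := by rw [← Real.exp_add]; simp; ring
      have e2 : Real.exp u = Real.exp (u / 2) ^ 2 := by
        rw [← Real.exp_nat_mul]; congr 1; push_cast; ring
      have e3 : Real.exp (-u) = Real.exp (-u / 2) ^ 2 := by
        rw [← Real.exp_nat_mul]; congr 1; push_cast; ring
      have e4 := sq_nonneg (Real.exp (u / 2) * |(n : ℝ)| - Real.exp (-u / 2) * |(k : ℝ)|)
      rw [e2, e3, ← sq_abs (n : ℝ), ← sq_abs (k : ℝ)]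
      calc 2 * (|(n : ℝ)| * |(k : ℝ)|) =
            2 * (Real.exp (u / 2) * Real.exp (-u / 2)) * (|(n : ℝ)| * |(k : ℝ)|) := by
              rw [e1]; ring
        _ ≤ _ := by linarith [e4]
    have k2 : (|(n : ℝ)| + |(k : ℝ)|) / 2 ≤ |(n : ℝ)| * |(k : ℝ)| := by nlinarith
    have k3 : σ * (|(n : ℝ)| * |(k : ℝ)|) ≤
        Real.pi * y * σ * (Real.exp u * (n : ℝ) ^ 2 + Real.exp (-u) * (k : ℝ) ^ 2) := by
      have a1 : Real.pi * y * σ * (2 * (|(n : ℝ)| * |(k : ℝ)|)) ≤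
          Real.pi * y * σ * (Real.exp u * (n : ℝ) ^ 2 + Real.exp (-u) * (k : ℝ) ^ 2) := by
        gcongr
      refine le_trans ?_ a1
      have a2 : 1 ≤ Real.pi * y * 2 := by nlinarith
      have a3 : 0 ≤ σ * (|(n : ℝ)| * |(k : ℝ)|) := by positivity
      nlinarith
    have k4 : σ * ((|(n : ℝ)| + |(k : ℝ)|) / 2) ≤ σ * (|(n : ℝ)| * |(k : ℝ)|) := by gcongr
    linarith [k3, k4]

namespace Bd

theorem exp_quarter : Real.exp (1 / 4) ≤ 3 / 2 := by
  have h := Real.exp_one_lt_d9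
  have h2 : Real.exp (1 / 4) ^ 4 = Real.exp 1 := by
    rw [← Real.exp_nat_mul]; congr 1; norm_num
  by_contra hcon
  push Not at hcon
  have h3 : (3 / 2 : ℝ) ^ 4 < Real.exp (1 / 4) ^ 4 := by gcongr
  rw [h2] at h3
  norm_num at h3
  linarith

theorem tsum_decay_le {E : ℝ} (hE : 1 ≤ E) :
    ∑' n : ℤ, Real.exp (-(3 / 4 * E⁻¹ * (n : ℝ) ^ 2)) ≤ 1 + 4 * E := by
  have hE0 : 0 < E := by linarith
  have ha : 0 < 3 / 4 * E⁻¹ := by positivity
  refine (tsum_gauss_le ha).trans ?_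
  have hEi : E⁻¹ ≤ 1 := inv_le_one_of_one_le₀ hE
  have hw : 3 / 4 * E⁻¹ ≤ Real.sqrt (3 / 4 * E⁻¹) := by
    apply Real.le_sqrt_of_sq_le
    nlinarith
  have hw0 : 0 < Real.sqrt (3 / 4 * E⁻¹) := Real.sqrt_pos.2 ha
  have h1 : 2 * Real.exp (1 / 4) / Real.sqrt (3 / 4 * E⁻¹) ≤ 4 * E := by
    rw [div_le_iff₀ hw0]
    have h2 : 4 * E * (3 / 4 * E⁻¹) = 3 := by field_simp
    have h3 : 4 * E * (3 / 4 * E⁻¹) ≤ 4 * E * Real.sqrt (3 / 4 * E⁻¹) := by gcongr
    have h4 := exp_quarter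
    linarith
  linarith

theorem term_decay (y u : ℝ) (hy : 1 / 4 ≤ y) (hu : 0 ≤ u) (n k : ℤ) (hn : n ≠ 0) :
    Real.exp (-(Real.pi * y * Real.cos 0 * Real.exp u * (n : ℝ) ^ 2)) *
        Real.exp (-(Real.pi * y * Real.cos 0 * Real.exp (-u) * (k : ℝ) ^ 2)) ≤
      (Real.exp (-(3 / 5 * Real.exp u)) * Real.exp (-(9 / 50 * (n : ℝ) ^ 2))) *
        Real.exp (-(3 / 4 * (Real.exp u)⁻¹ * (k : ℝ) ^ 2)) := by
  rw [← Real.exp_add, ← Real.exp_add, ← Real.exp_add, Real.exp_le_exp, Real.cos_zero,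
    ← Real.exp_neg]
  have h1 := one_le_abs hn
  have h2 : 1 ≤ (n : ℝ) ^ 2 := by rw [← sq_abs]; nlinarith
  have hu1 : 1 ≤ Real.exp u := Real.one_le_exp hu
  have hu2 := Real.exp_pos (-u)
  have hpi := Real.pi_gt_d2
  have a1 : 3.14 / 4 ≤ Real.pi * y := by nlinarith
  have a2 : 0 ≤ Real.exp u * (n : ℝ) ^ 2 := by positivity
  have a3 : 0 ≤ Real.exp (-u) * (k : ℝ) ^ 2 := by positivity
  have b1 : 3.14 / 4 * (Real.exp u * (n : ℝ) ^ 2) ≤ Real.pi * y * (Real.exp u * (n : ℝ) ^ 2) := by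
    gcongr
  have b2 : 3.14 / 4 * (Real.exp (-u) * (k : ℝ) ^ 2) ≤ Real.pi * y * (Real.exp (-u) * (k : ℝ) ^ 2) := by
    gcongr
  have b3 : Real.exp u ≤ Real.exp u * (n : ℝ) ^ 2 := by nlinarith
  have b4 : (n : ℝ) ^ 2 ≤ Real.exp u * (n : ℝ) ^ 2 := by nlinarith
  nlinarith

theorem exp_E {E : ℝ} :
    Real.exp (-(3 / 5 * E)) * (1 + 4 * E) ≤ 41 * Real.exp (-E / 2) := by
  have e1 : Real.exp (-(3 / 5 * E)) = Real.exp (-E / 2) * Real.exp (-(E / 10)) := by
    rw [← Real.exp_add]; congr 1; ring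
  rw [e1]
  have h1 : E / 10 + 1 ≤ Real.exp (E / 10) := Real.add_one_le_exp _
  have h2 : Real.exp (-(E / 10)) * Real.exp (E / 10) = 1 := by rw [← Real.exp_add]; simp
  have h3 := Real.exp_pos (-(E / 10))
  have h4 := Real.exp_pos (-E / 2)
  have h5 : Real.exp (-(E / 10)) * (1 + 4 * E) ≤ 41 := by nlinarith
  calc _ = Real.exp (-E / 2) * (Real.exp (-(E / 10)) * (1 + 4 * E)) := by ring
    _ ≤ Real.exp (-E / 2) * 41 := by gcongr
    _ = _ := by ring

end Bd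

theorem W_decay : ∃ C : ℝ, 0 < C ∧ ∀ θ y u : ℝ, 1 / 4 ≤ y →
    ‖W θ y 0 u‖ ≤ C * Real.sqrt y * Real.exp (-Real.exp |u| / 2) := by
  have hA := Bd.summable_gauss (a := 9 / 50) (by norm_num)
  set A := ∑' n : ℤ, Real.exp (-(9 / 50 * (n : ℝ) ^ 2)) with hAdef
  have hA0 : 0 ≤ A := tsum_nonneg (fun _ => (Real.exp_pos _).le)
  refine ⟨41 * (A + 1), by positivity, ?_⟩
  intro θ y u hy
  have hy0 : 0 < y := by linarith
  have hα : |(0 : ℝ)| < Real.pi / 2 := by simp [Real.pi_pos]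
  have hsy := Real.sqrt_nonneg y
  set E := Real.exp |u| with hE
  have hE1 : 1 ≤ E := Real.one_le_exp (abs_nonneg u)
  have hE0 : 0 < E := by linarith
  have hB := Bd.summable_gauss (a := 3 / 4 * E⁻¹) (by positivity)
  have hBle := Bd.tsum_decay_le hE1
  have hB0 : 0 ≤ ∑' n : ℤ, Real.exp (-(3 / 4 * E⁻¹ * (n : ℝ) ^ 2)) :=
    tsum_nonneg (fun _ => (Real.exp_pos _).le)
  have hfin : (1 / 2) * Real.sqrt y * ((Real.exp (-(3 / 5 * E)) * A) *
      (∑' n : ℤ, Real.exp (-(3 / 4 * E⁻¹ * (n : ℝ) ^ 2)))) ≤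
      41 * (A + 1) * Real.sqrt y * Real.exp (-E / 2) := by
    have h1 : Real.exp (-(3 / 5 * E)) * (∑' n : ℤ, Real.exp (-(3 / 4 * E⁻¹ * (n : ℝ) ^ 2))) ≤
        41 * Real.exp (-E / 2) := by
      refine le_trans ?_ (Bd.exp_E)
      gcongr
    have h2 : 0 ≤ Real.exp (-E / 2) := (Real.exp_pos _).le
    calc _ = (1 / 2) * Real.sqrt y * A * (Real.exp (-(3 / 5 * E)) *
          (∑' n : ℤ, Real.exp (-(3 / 4 * E⁻¹ * (n : ℝ) ^ 2)))) := by ring
      _ ≤ (1 / 2) * Real.sqrt y * A * (41 * Real.exp (-E / 2)) := by gcongr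
      _ ≤ 41 * (A + 1) * Real.sqrt y * Real.exp (-E / 2) := by
        have : 0 ≤ Real.sqrt y * Real.exp (-E / 2) := by positivity
        nlinarith [mul_nonneg hA0 this]
  rcases le_total 0 u with hu | hu
  · have hEu : E = Real.exp u := by rw [hE, abs_of_nonneg hu]
    have h := Bd.norm_W_le θ y 0 u hy0 hα
      (fun n => Real.exp (-(3 / 5 * E)) * Real.exp (-(9 / 50 * (n : ℝ) ^ 2)))
      (fun n => Real.exp (-(3 / 4 * E⁻¹ * (n : ℝ) ^ 2))) (hA.mul_left _) hB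
      (fun _ => by positivity) (fun _ => by positivity) ?_
    · rw [tsum_mul_left] at h
      exact h.trans hfin
    · rintro ⟨n, k⟩ hn hk
      rw [Bd.norm_term, hEu]
      exact Bd.term_decay y u hy hu n k hn
  · have hEu : E = Real.exp (-u) := by rw [hE, abs_of_nonpos hu]
    have h := Bd.norm_W_le θ y 0 u hy0 hα
      (fun n => Real.exp (-(3 / 4 * E⁻¹ * (n : ℝ) ^ 2)))
      (fun n => Real.exp (-(3 / 5 * E)) * Real.exp (-(9 / 50 * (n : ℝ) ^ 2)))
      hB (hA.mul_left _)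
      (fun _ => by positivity) (fun _ => by positivity) ?_
    · rw [tsum_mul_left, mul_comm (∑' n : ℤ, Real.exp (-(3 / 4 * E⁻¹ * (n : ℝ) ^ 2)))] at h
      exact h.trans hfin
    · rintro ⟨n, k⟩ hn hk
      rw [Bd.norm_term, hEu]
      have := Bd.term_decay y (-u) hy (by linarith) k n hk
      rw [neg_neg] at this
      rw [mul_comm, mul_comm (Real.exp (-(3 / 4 * (Real.exp (-u))⁻¹ * (n : ℝ) ^ 2)))]
      exact this

/-- Consequence of `Z_bound` and `W_bound`: `R` is bounded in `u`. -/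
theorem R_bound : ∃ C : ℝ, 0 < C ∧ ∀ θ y α u : ℝ, 1 / 4 ≤ y → |α| < Real.pi / 2 →
    ‖R θ y α u‖ ≤ C * Real.sqrt y / (Real.cos α) ^ 2 := by
  obtain ⟨C₁, h₁, H₁⟩ := Z_bound
  obtain ⟨C₂, h₂, H₂⟩ := W_bound
  refine ⟨C₁ + C₂ + 1, by positivity, ?_⟩
  intro θ y α u hy hα
  have hy0 : 0 < y := by linarith
  have hc := Bd.cos_pos' hα
  have hc1 := Real.cos_le_one α
  have hz := H₁ θ y α u hy hα
  have hw := H₂ θ y α u hy hα
  set σ := Real.cos α with hσ
  have hsy := Real.sqrt_nonneg y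
  have b3 : ‖(1 / 2) * (Real.sqrt y : ℂ)‖ = 1 / 2 * Real.sqrt y := by
    rw [norm_mul, Complex.norm_real, Real.norm_of_nonneg (Real.sqrt_nonneg _)]
    norm_num
  have e : R θ y α u = (R θ y α u - W θ y α u - (1 / 2) * (Real.sqrt y : ℂ)) + W θ y α u +
      (1 / 2) * (Real.sqrt y : ℂ) := by ring
  have hs : 0 < Real.sqrt σ := Real.sqrt_pos.2 hc
  have hss : σ ^ 2 ≤ Real.sqrt σ := by
    apply Real.le_sqrt_of_sq_le
    have : σ ^ 2 ≤ 1 := by nlinarith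
    have h3 : σ ^ 3 ≤ 1 := by nlinarith [mul_pos hc hc]
    calc (σ ^ 2) ^ 2 = σ * σ ^ 3 := by ring
      _ ≤ σ * 1 := by gcongr
      _ = σ := by ring
  have k1 : C₁ / Real.sqrt σ * min (Real.exp (|u| / 2)) (Real.sqrt y) ≤
      C₁ * Real.sqrt y / σ ^ 2 := by
    calc _ ≤ C₁ / Real.sqrt σ * Real.sqrt y := by
          gcongr; exact min_le_right _ _
      _ ≤ C₁ / σ ^ 2 * Real.sqrt y := by gcongr
      _ = _ := by ring
  have k2 : 1 / 2 * Real.sqrt y ≤ Real.sqrt y / σ ^ 2 := by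
    rw [le_div_iff₀ (by positivity)]
    have : σ ^ 2 ≤ 1 := by nlinarith
    nlinarith
  rw [e]
  refine (norm_add_le _ _).trans ?_
  have n1 := norm_add_le (R θ y α u - W θ y α u - (1 / 2) * (Real.sqrt y : ℂ)) (W θ y α u)
  have : (C₁ + C₂ + 1) * Real.sqrt y / σ ^ 2 = C₁ * Real.sqrt y / σ ^ 2 +
      C₂ * Real.sqrt y / σ ^ 2 + Real.sqrt y / σ ^ 2 := by ring
  rw [b3]
  linarith

end Pool.Hhelper76.CL
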