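import Pool.Agent.Hhelper85.CZ.Defs

/-!
# Zeros of class group L-functions on the critical line: definitions

Everything is expressed through the normalised parameters `y = √D / (2a) ≥ 1/4` and
`θ = β / (2a)` of a positive definite form `a m² + β m n + c n²` of discriminant `-D`.
-/

open Complex MeasureTheory

namespace Pool.Hhelper76.CL

/-- Normalised norm form of the lattice point `(m, n)`: it is `(2 / √D) (a m² + β m n + c n²)`. -/
noncomputable def q (θ y : ℝ) (p : ℤ × ℤ) : ℝ :=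
  (((p.1 : ℝ) + p.2 * θ) ^ 2 + (p.2 : ℝ) ^ 2 * y ^ 2) / y

/-- General term of the double series `S`, `p = (n, k)`:
`exp(-π y (x n² + k² / x)) e(n k θ)`. -/
noncomputable def term (θ y : ℝ) (x : ℂ) (p : ℤ × ℤ) : ℂ :=
  cexp (-(Real.pi * y : ℝ) * (x * (p.1 : ℂ) ^ 2 + (p.2 : ℂ) ^ 2 / x)) *
    cexp (2 * Real.pi * I * ((p.1 : ℂ) * (p.2 : ℂ) * (θ : ℂ)))

/-- The double series `S(θ, y, x) = ∑_{n,k} exp(-π y (x n² + k² / x)) e(n k θ)`. -/
noncomputable def S (θ y : ℝ) (x : ℂ) : ℂ := ∑' p : ℤ × ℤ, term θ y x p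

/-- The part of `√y S / 2` with `n k ≠ 0`, at `x = exp(u + iα)`. -/
noncomputable def W (θ y α u : ℝ) : ℂ :=
  (1 / 2) * (Real.sqrt y : ℂ) *
    ∑' p : {p : ℤ × ℤ // p.1 ≠ 0 ∧ p.2 ≠ 0}, term θ y (cexp (u + α * I)) p.1

/-- The common correction term: `x^(1/2)` for `u > 0`, `x^(-1/2)` for `u ≤ 0`,
`x = exp(u + iα)`. -/
noncomputable def cor (α u : ℝ) : ℂ :=
  if 0 < u then cexp ((u + α * I) / 2) else cexp (-((u + α * I) / 2))

/-- `R = (√y S(θ, y, x) - x^(±1/2)) / 2`, `x = exp(u + iα)`. -/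
noncomputable def R (θ y α u : ℝ) : ℂ :=
  (1 / 2) * ((Real.sqrt y : ℂ) * S θ y (cexp (u + α * I)) - cor α u)

/-- The theta function of a finite family of lattices with coefficients `c`. -/
noncomputable def F {ι : Type} [Fintype ι] (c : ι → ℂ) (θ y : ι → ℝ) (x : ℂ) : ℂ :=
  (1 / 2) * ∑ i, c i * ((Real.sqrt (y i) : ℂ) * S (θ i) (y i) x)

/-- A fixed smooth bump with support `[1/2, 1]`. -/
noncomputable def bump : ContDiffBump (3 / 4 : ℝ) :=
  ⟨1 / 8, 1 / 4, by norm_num, by norm_num⟩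

/-- The weight `V(t) = bump(t/T)`, supported in `[T/2, T]`. -/
noncomputable def V (T t : ℝ) : ℝ := bump (t / T)

/-- The integral of the bump. -/
noncomputable def m₀ : ℝ := ∫ t, bump t

/-- Fourier transform of the weight. -/
noncomputable def Vc (T u : ℝ) : ℂ := ∫ t : ℝ, (V T t : ℂ) * cexp (I * t * u)

/-- Fourier transform of `V(t) / Γ(1/2 + it)`. -/
noncomputable def H (T l : ℝ) : ℂ :=
  ∫ t : ℝ, (V T t : ℂ) / Complex.Gamma (1 / 2 + t * I) * cexp (I * t * l)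

/-- The angle `α = π/2 - 1/T`. -/
noncomputable def al (T : ℝ) : ℝ := Real.pi / 2 - 1 / T

/-- Contribution of one form to `∫ Λ(1/2+it) e^{αt} V(t) dt`. -/
noncomputable def Mc (T θ y : ℝ) : ℂ := ∫ u : ℝ, R θ y (al T) u * Vc T u

/-- Contribution of one form (leading coefficient `a`, discriminant `-D`, `y = √D/(2a)`) to
`∫ L(1/2+it) V(t) dt`. -/
noncomputable def Pc (T θ D a : ℝ) : ℂ :=
  (1 / Real.sqrt (Real.sqrt D / (2 * Real.pi)) : ℝ) *
    ∫ u : ℝ, R θ (Real.sqrt D / (2 * a)) 0 u *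
      H T (u - Real.log (Real.sqrt D / (2 * Real.pi)))

end Pool.Hhelper76.CL
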