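import Pool.Agent.Hhelper85.CZ.Param

/-!
# CL module K (DiscCount): there are `≥ c X` discriminants of imaginary quadratic fields up to `X`

PAPER PROOF. For squarefree `d ≥ 1` let `K = ℚ(√-d)` (e.g. `AdjoinRoot (X^2 + C (d:ℚ))`, irreducible
as it has no rational root; a `Type`, finrank 2; it is a number field). Let `s ∈ 𝓞 K`,
`s² = -d`. The family `(1, s)` has `Algebra.discr ℤ`/`ℚ` equal to `det [[2, 0], [0, -2d]] = -4d`
(traces: `tr 1 = 2`, `tr s = 0`, `tr s² = -2d`; `tr s = 0` because the minimal polynomial is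
`X² + d`). With a `ℤ`-basis of `𝓞 K` and the integer transition matrix `P`:
`-4d = (det P)² discr K` (`Algebra.discr_of_matrix_vecMul` / `discr_of_matrix_mulVec`,
`NumberField.discr`). So `discr K = -D` with `D f² = 4 d`, `D > 0`, `f = |det P|`; in particular
`D ≤ 4d`. Injectivity of `d ↦ D`: `f² ∣ 4d` with `d` squarefree gives `f ∈ {1, 2}`
(for an odd prime `p ∣ f`, `p² ∣ d`; `4 ∣ f` gives `4 ∣ d`), so `D ∈ {4d, d}`. If `D = 4d = d'` with
`d'` squarefree: impossible as `4 ∣ d'`. So `D(d) = D(d')` implies `d = d'`.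
Hence `#{D ≤ X : ∃ K} ≥ #{d ≤ X/4 squarefree}`, minus at most 4 for the condition `4 < D`.
Squarefree numbers up to `Z`: at least `Z - ∑_{p ≥ 2 prime} Z/p² ≥ Z (1 - 1/4 - ∑_{m≥1} 1/(2m+1)²)`,
and `∑_{m≥1} 1/(2m+1)² = π²/8 - 1 < 1/4` (or elementary: `1/(2m+1)² ≤ (1/4)(1/m - 1/(m+1))`, sum
`≤ 1/4`), so at least `Z/2 - 1`.
-/

open scoped NumberField

namespace Pool.Hhelper76.CL


theorem fact_neg (d : ℕ) (hd : 0 < d) : Fact (∀ r : ℚ, r ^ 2 ≠ -(d : ℚ) + 0 * r) := by
  constructor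
  intro r h
  have h1 : (0 : ℚ) < d := by exact_mod_cast hd
  nlinarith [sq_nonneg r]

theorem exists_field (d : ℕ) (hd : 0 < d) : ∃ D n : ℕ, 0 < n ∧ n ^ 2 * D = 4 * d ∧
    ∃ (K : Type) (_ : Field K) (_ : NumberField K),
      Module.finrank ℚ K = 2 ∧ NumberField.discr K = -(D : ℤ) := by
  classical
  have hf := fact_neg d hd
  let K : Type := QuadraticAlgebra ℚ (-(d : ℚ)) 0
  let _ : Field K := inferInstanceAs (Field (QuadraticAlgebra ℚ (-(d : ℚ)) 0))
  have _ : CharZero K := by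
    infer_instance
  have h2 : Module.finrank ℚ K = 2 := QuadraticAlgebra.finrank_eq_two _ _
  have _ : FiniteDimensional ℚ K := Module.finite_of_finrank_pos (by rw [h2]; norm_num)
  have _ : NumberField K := ⟨⟩
  have hdQ : (0 : ℚ) < d := by exact_mod_cast hd
  have hnormK : ∀ z : K, Algebra.norm ℚ z = z.re ^ 2 + (d : ℚ) * z.im ^ 2 := by
    intro z
    have h1 : Algebra.norm ℚ z = QuadraticAlgebra.norm z := by
      rw [Algebra.norm_apply, ← QuadraticAlgebra.det_toLinearMap_eq_norm]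
      rfl
    rw [h1, QuadraticAlgebra.norm_def]
    ring
  let w : K := (⟨0, 1⟩ : QuadraticAlgebra ℚ (-(d : ℚ)) 0)
  have hw2 : w * w = -((d : ℕ) : K) := by
    apply QuadraticAlgebra.ext
    · change (0 : ℚ) * 0 + -(d : ℚ) * 1 * 1 = -(((d : ℕ) : QuadraticAlgebra ℚ (-(d : ℚ)) 0).re)
      rw [QuadraticAlgebra.re_natCast]
      ring
    · change (0 : ℚ) * 1 + 1 * 0 + 0 * 1 * 1 = -(((d : ℕ) : QuadraticAlgebra ℚ (-(d : ℚ)) 0).im)
      rw [QuadraticAlgebra.im_natCast]
      ring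
  have hwint : IsIntegral ℤ w := by
    refine ⟨Polynomial.X ^ 2 + Polynomial.C (d : ℤ), Polynomial.monic_X_pow_add_C _ two_ne_zero, ?_⟩
    rw [Polynomial.eval₂_add, Polynomial.eval₂_pow, Polynomial.eval₂_X, Polynomial.eval₂_C, sq, hw2]
    simp
  let s : 𝓞 K := ⟨w, hwint⟩
  have hnorms : ∀ u v : ℤ, Algebra.norm ℤ ((u : 𝓞 K) + (v : 𝓞 K) * s) = u ^ 2 + d * v ^ 2 := by
    intro u v
    have h1 := Algebra.coe_norm_int ((u : 𝓞 K) + (v : 𝓞 K) * s)
    rw [hnormK] at h1
    have hre : (((((u : 𝓞 K) + (v : 𝓞 K) * s : 𝓞 K)) : K) : QuadraticAlgebra ℚ (-(d : ℚ)) 0) =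
        ⟨(u : ℚ), (v : ℚ)⟩ := by
      have h3 : ((((u : 𝓞 K) + (v : 𝓞 K) * s : 𝓞 K)) : K) = (u : K) + (v : K) * w := by
        push_cast
        rfl
      rw [h3]
      apply QuadraticAlgebra.ext
      · change ((u : ℤ) : QuadraticAlgebra ℚ (-(d : ℚ)) 0).re +
          (((v : ℤ) : QuadraticAlgebra ℚ (-(d : ℚ)) 0).re * 0 + -(d : ℚ) *
            (((v : ℤ) : QuadraticAlgebra ℚ (-(d : ℚ)) 0).im) * 1) = _
        rw [QuadraticAlgebra.re_intCast, QuadraticAlgebra.re_intCast, QuadraticAlgebra.im_intCast]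
        ring
      · change ((u : ℤ) : QuadraticAlgebra ℚ (-(d : ℚ)) 0).im +
          (((v : ℤ) : QuadraticAlgebra ℚ (-(d : ℚ)) 0).re * 1 +
            (((v : ℤ) : QuadraticAlgebra ℚ (-(d : ℚ)) 0).im) * 0 + 0 *
            (((v : ℤ) : QuadraticAlgebra ℚ (-(d : ℚ)) 0).im) * 1) = _
        rw [QuadraticAlgebra.re_intCast, QuadraticAlgebra.im_intCast, QuadraticAlgebra.im_intCast]
        ring
    rw [hre] at h1
    simp only at h1
    exact_mod_cast h1
  obtain ⟨ω, t, q, hspan, hind, hnorm, hdisc⟩ := Pool.Hhelper85.CZ.exists_omega K h2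
  obtain ⟨m, n, hmn⟩ := hspan s
  have key : ∀ u v : ℤ, u ^ 2 + d * v ^ 2 =
      (u + v * m) ^ 2 + t * (u + v * m) * (v * n) + q * (v * n) ^ 2 := by
    intro u v
    rw [← hnorms u v, ← hnorm, hmn]
    congr 1
    push_cast
    ring
  have k1 := key 0 1
  have k2 := key 1 1
  have e1 : 2 * m + t * n = 0 := by linarith
  have e2 : m ^ 2 + t * m * n + q * n ^ 2 = d := by linarith
  have e3 : n ^ 2 * NumberField.discr K = -(4 * d) := by
    rw [hdisc]
    linear_combination (t * n + 2 * m) * e1 - 4 * e2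
  have hdZ : (0 : ℤ) < d := by exact_mod_cast hd
  have hn0 : n ≠ 0 := by
    rintro rfl
    have : (0 : ℤ) ^ 2 * NumberField.discr K = 0 := by ring
    rw [this] at e3
    linarith
  have hn2 : 0 < n ^ 2 := by positivity
  have hneg : NumberField.discr K < 0 := by
    by_contra h
    have : 0 ≤ n ^ 2 * NumberField.discr K := mul_nonneg hn2.le (not_lt.1 h)
    linarith
  refine ⟨(NumberField.discr K).natAbs, n.natAbs, Int.natAbs_pos.2 hn0, ?_, K, inferInstance,
    inferInstance, h2, ?_⟩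
  · zify
    rw [sq_abs, abs_of_neg hneg]
    linarith
  · rw [Int.natCast_natAbs, abs_of_neg hneg, neg_neg]

theorem sum_sq_le (n : ℕ) (hn : 2 ≤ n) :
    ∑ k ∈ Finset.Icc 2 n, (1 : ℝ) / (k : ℝ) ^ 2 ≤ 3 / 4 - 1 / n := by
  induction n, hn using Nat.le_induction with
  | base => norm_num
  | succ n hn ih =>
    rw [Finset.sum_Icc_succ_top (by omega)]
    have hn0 : (0 : ℝ) < n := by positivity
    have h1 : (1 : ℝ) / ((n + 1 : ℕ) : ℝ) ^ 2 ≤ 1 / n - 1 / ((n + 1 : ℕ) : ℝ) := by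
      push_cast
      rw [div_sub_div _ _ hn0.ne' (by positivity), div_le_div_iff₀ (by positivity) (by positivity)]
      nlinarith
    linarith

theorem sqfree_count (Z : ℕ) :
    (Z : ℝ) / 4 ≤ (((Finset.Icc 1 Z).filter Squarefree).card : ℝ) := by
  classical
  rcases Nat.lt_or_ge Z 2 with hZ | hZ
  · interval_cases Z
    · simp
    · have : (Finset.Icc 1 1).filter Squarefree = {1} := by
        ext x
        simp only [Finset.mem_filter, Finset.mem_Icc, Finset.mem_singleton]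
        constructor
        · rintro ⟨h, -⟩
          omega
        · rintro rfl
          exact ⟨⟨le_rfl, le_rfl⟩, squarefree_one⟩
      rw [this]
      norm_num
  · have hsub : (Finset.Icc 1 Z).filter (fun m => ¬ Squarefree m) ⊆
        (Finset.Icc 2 Z).biUnion (fun k => (Finset.Ioc 0 Z).filter (fun m => k ^ 2 ∣ m)) := by
      intro m hm
      rw [Finset.mem_filter, Finset.mem_Icc] at hm
      obtain ⟨⟨hm1, hm2⟩, hsq⟩ := hm
      rw [Squarefree] at hsq
      push Not at hsq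
      obtain ⟨x, hx, hxu⟩ := hsq
      have hx0 : x ≠ 0 := by
        rintro rfl
        rw [zero_mul, zero_dvd_iff] at hx
        omega
      have hx1 : x ≠ 1 := fun h => hxu (by rw [h]; exact isUnit_one)
      have hxm : x * x ≤ m := Nat.le_of_dvd (by omega) hx
      have hxx : x ≤ x * x := Nat.le_mul_self x
      rw [Finset.mem_biUnion]
      refine ⟨x, Finset.mem_Icc.2 ⟨by omega, by omega⟩, ?_⟩
      rw [Finset.mem_filter, Finset.mem_Ioc, sq]
      exact ⟨⟨by omega, hm2⟩, hx⟩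
    have h1 : ((((Finset.Icc 1 Z).filter (fun m => ¬ Squarefree m)).card : ℕ) : ℝ) ≤
        ∑ k ∈ Finset.Icc 2 Z, (Z : ℝ) * (1 / (k : ℝ) ^ 2) := by
      have h3 := (Finset.card_le_card hsub).trans Finset.card_biUnion_le
      have h4 : ((((Finset.Icc 1 Z).filter (fun m => ¬ Squarefree m)).card : ℕ) : ℝ) ≤
          ((∑ k ∈ Finset.Icc 2 Z, ((Finset.Ioc 0 Z).filter (fun m => k ^ 2 ∣ m)).card : ℕ) : ℝ) := by
        exact_mod_cast h3
      refine h4.trans ?_
      rw [Nat.cast_sum]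
      refine Finset.sum_le_sum fun k hk => ?_
      rw [Nat.Ioc_filter_dvd_card_eq_div]
      refine Nat.cast_div_le.trans ?_
      push_cast
      rw [mul_one_div]
    have h2 : ((((Finset.Icc 1 Z).filter Squarefree).card : ℕ) : ℝ) +
        (((Finset.Icc 1 Z).filter (fun m => ¬ Squarefree m)).card : ℝ) = Z := by
      have := Finset.card_filter_add_card_filter_not (s := Finset.Icc 1 Z) Squarefree
      rw [Nat.card_Icc, Nat.add_sub_cancel] at this
      exact_mod_cast this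
    rw [← Finset.mul_sum] at h1
    have h3 := sum_sq_le Z hZ
    have hZ0 : (0 : ℝ) < Z := by positivity
    have h4 : (Z : ℝ) * ∑ k ∈ Finset.Icc 2 Z, (1 : ℝ) / (k : ℝ) ^ 2 ≤ Z * (3 / 4) := by
      refine mul_le_mul_of_nonneg_left (h3.trans ?_) hZ0.le
      have : (0 : ℝ) < 1 / Z := by positivity
      linarith
    linarith

theorem sqfree_unique {d d' n n' D : ℕ} (hd : Squarefree d) (hd' : Squarefree d')
    (hn : 0 < n) (hn' : 0 < n') (h : n ^ 2 * D = 4 * d) (h' : n' ^ 2 * D = 4 * d') : d = d' := by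
  have hd0 : d ≠ 0 := hd.ne_zero
  have hd0' : d' ≠ 0 := hd'.ne_zero
  have key : d * n' ^ 2 = d' * n ^ 2 := by
    have : 4 * (d * n' ^ 2) = 4 * (d' * n ^ 2) := by
      calc 4 * (d * n' ^ 2) = (4 * d) * n' ^ 2 := by ring
        _ = n ^ 2 * D * n' ^ 2 := by rw [h]
        _ = n ^ 2 * (n' ^ 2 * D) := by ring
        _ = n ^ 2 * (4 * d') := by rw [h']
        _ = 4 * (d' * n ^ 2) := by ring
    omega
  refine Nat.eq_of_factorization_eq hd0 hd0' fun p => ?_
  have h1 : (d * n' ^ 2).factorization p = (d' * n ^ 2).factorization p := by rw [key]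
  rw [Nat.factorization_mul hd0 (by positivity), Nat.factorization_mul hd0' (by positivity),
    Nat.factorization_pow, Nat.factorization_pow] at h1
  simp only [Finsupp.add_apply, Finsupp.smul_apply, smul_eq_mul] at h1
  have h3 := hd.natFactorization_le_one p
  have h4 := hd'.natFactorization_le_one p
  omega


theorem disc_count : ∃ c : ℝ, 0 < c ∧ ∃ X₀ : ℕ, ∀ X : ℕ, X₀ ≤ X →
    c * X ≤ (({D : ℕ | D ≤ X ∧ 4 < D ∧ ∃ (K : Type) (_ : Field K) (_ : NumberField K),
      Module.finrank ℚ K = 2 ∧ NumberField.discr K = -(D : ℤ)}.ncard : ℕ) : ℝ) := by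
  classical
  refine ⟨1 / 32, by norm_num, 200, fun X hX => ?_⟩
  set S : Set ℕ := {D : ℕ | D ≤ X ∧ 4 < D ∧ ∃ (K : Type) (_ : Field K) (_ : NumberField K),
      Module.finrank ℚ K = 2 ∧ NumberField.discr K = -(D : ℤ)} with hS
  have hSfin : S.Finite := (Set.finite_Iic X).subset fun D hD => hD.1
  set Z : ℕ := X / 4 with hZ
  have hex : ∀ d : ℕ, ∃ D n : ℕ, 0 < d → (0 < n ∧ n ^ 2 * D = 4 * d ∧
      ∃ (K : Type) (_ : Field K) (_ : NumberField K),
      Module.finrank ℚ K = 2 ∧ NumberField.discr K = -(D : ℤ)) := by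
    intro d
    rcases Nat.eq_zero_or_pos d with rfl | hd
    · exact ⟨0, 0, fun h => absurd h (lt_irrefl 0)⟩
    · obtain ⟨D, n, h⟩ := exists_field d hd
      exact ⟨D, n, fun _ => h⟩
  choose f n hf using hex
  set Q := (Finset.Icc 1 Z).filter Squarefree with hQ
  have hinj : Set.InjOn f (Q : Set ℕ) := by
    intro d hd d' hd' h
    rw [hQ, Finset.mem_coe, Finset.mem_filter, Finset.mem_Icc] at hd hd'
    obtain ⟨h1, h2, -⟩ := hf d (by omega)
    obtain ⟨h1', h2', -⟩ := hf d' (by omega)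
    rw [h] at h2
    exact sqfree_unique hd.2 hd'.2 h1 h1' h2 h2'
  have hsub : Q.image f ⊆ hSfin.toFinset ∪ Finset.Icc 1 4 := by
    intro D hD
    obtain ⟨d, hd, rfl⟩ := Finset.mem_image.1 hD
    rw [hQ, Finset.mem_filter, Finset.mem_Icc] at hd
    obtain ⟨h1, h2, hK⟩ := hf d (by omega)
    have hpos : 0 < f d := by
      rcases Nat.eq_zero_or_pos (f d) with h | h
      · rw [h, mul_zero] at h2
        omega
      · exact h
    have hle : f d ≤ X := by
      have h3 : 1 ≤ n d ^ 2 := Nat.one_le_pow _ _ h1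
      have h4 : f d ≤ n d ^ 2 * f d := Nat.le_mul_of_pos_left _ (by omega)
      omega
    rw [Finset.mem_union, Set.Finite.mem_toFinset, Finset.mem_Icc]
    rcases Nat.lt_or_ge 4 (f d) with h | h
    · exact Or.inl ⟨hle, h, hK⟩
    · exact Or.inr ⟨hpos, h⟩
  have hcard := (Finset.card_le_card hsub).trans (Finset.card_union_le _ _)
  rw [Finset.card_image_of_injOn hinj, Nat.card_Icc, ← Set.ncard_eq_toFinset_card S hSfin] at hcard
  have h1 := sqfree_count Z
  have h2 : ((Q.card : ℕ) : ℝ) ≤ (S.ncard : ℝ) + 4 := by exact_mod_cast hcard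
  have h3 : (X : ℝ) ≤ 4 * Z + 3 := by
    have : X ≤ 4 * Z + 3 := by omega
    exact_mod_cast this
  have h4 : (200 : ℝ) ≤ X := by exact_mod_cast hX
  rw [← hQ] at h1
  linarith

end Pool.Hhelper76.CL
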