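import Pool.Agent.Hhelper76.CL.Rows

/-!
# CL module E (Lambda): analytic continuation and rotated Mellin transforms

For `Re x > 0` put `ϑ_i(x) = ∑_{Half} exp(-π x q_i(p))`. By `rows` and `∑ c_i = 0`,
`F(x) = x^{1/2} ∑ c_i ϑ_i(x)`, and `F(x⁻¹) = F(x)` by `S_inv`. With `x = exp(u + iβ)`,
`|β| ≤ |α| < π/2`, this gives `|F(exp(u+iβ))| ≤ C_m exp(-m |u|)` for every `m`. So
`Λ(s) := ∫ F(r) r^{s-1/2} dr/r` is entire; for `Re s > 1` the series is integrated term by term
(`hasSum_mellin`); and the path of integration can be rotated, by Cauchy's theorem for the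
function `F(exp w) exp(i t w)` in a rectangle.
-/

open Complex MeasureTheory Pool.Hhelper85.CZ Filter Topology Asymptotics

namespace Pool.Hhelper76.CL

/-- `F(x) = x^(1/2) ∑ c_i ∑_{Half} exp(-π x q_i)`. -/
theorem F_eq {ι : Type} [Fintype ι] (c : ι → ℂ) (θ y : ι → ℝ) (hy : ∀ i, 1 / 4 ≤ y i)
    (hc : ∑ i, c i = 0) (x : ℂ) (hx : 0 < x.re) :
    F c θ y x = x ^ (1 / 2 : ℂ) * ∑ i, c i * ∑' p : {p : ℤ × ℤ // Half p},
      cexp (-(Real.pi * q (θ i) (y i) p.1 : ℝ) * x) := by
  have hy' : ∀ i, 0 < y i := fun i => by linarith [hy i]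
  have h1 : F c θ y x = ∑ i, c i * ((1 / 2) * ((Real.sqrt (y i) : ℂ) * S (θ i) (y i) x)) := by
    rw [F, Finset.mul_sum]
    refine Finset.sum_congr rfl fun i _ => ?_
    ring
  have h2 : ∑ i, c i * (x ^ (1 / 2 : ℂ) * (1 / 2)) = 0 := by
    rw [← Finset.sum_mul, hc, zero_mul]
  rw [h1, ← sub_zero (∑ i, c i * ((1 / 2) * ((Real.sqrt (y i) : ℂ) * S (θ i) (y i) x))), ← h2,
    ← Finset.sum_sub_distrib, Finset.mul_sum]
  refine Finset.sum_congr rfl fun i _ => ?_
  rw [← rows (θ i) (y i) (hy' i) x hx]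
  ring

theorem F_inv {ι : Type} [Fintype ι] (c : ι → ℂ) (θ y : ι → ℝ) (x : ℂ) (hx : x ≠ 0) :
    F c θ y x⁻¹ = F c θ y x := by
  simp only [F, S_inv _ _ x hx]

/-- Lower bound for `q` on the half lattice. -/
theorem q_lower_half (θ y : ℝ) (hy : 0 < y) : ∃ δ : ℝ, 0 < δ ∧ ∀ p : ℤ × ℤ, Half p →
    δ ≤ q θ y p := by
  obtain ⟨δ, hδ, h⟩ := q_lower θ y hy
  refine ⟨δ, hδ, fun p hp => le_trans ?_ (h p)⟩
  have h1 : (1 : ℝ) ≤ (p.1 : ℝ) ^ 2 + (p.2 : ℝ) ^ 2 := by
    have : (1 : ℤ) ≤ p.1 ^ 2 + p.2 ^ 2 := by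
      rcases hp with h | ⟨_, h⟩ <;> nlinarith [sq_nonneg p.1, sq_nonneg p.2]
    exact_mod_cast this
  nlinarith

theorem norm_exp_q (θ y : ℝ) (p : ℤ × ℤ) (x : ℂ) :
    ‖cexp (-(Real.pi * q θ y p : ℝ) * x)‖ = Real.exp (-(Real.pi * q θ y p * x.re)) := by
  rw [norm_exp, ← ofReal_neg, re_ofReal_mul]
  congr 1
  ring

/-- Exponential decay of the theta series of the half lattice. -/
theorem theta_decay (θ y : ℝ) (hy : 0 < y) (κ : ℝ) (hκ : 0 < κ) : ∃ C δ : ℝ, 0 < C ∧ 0 < δ ∧
    ∀ x : ℂ, κ ≤ x.re → ‖∑' p : {p : ℤ × ℤ // Half p}, cexp (-(Real.pi * q θ y p.1 : ℝ) * x)‖ ≤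
      C * Real.exp (-(δ * x.re)) := by
  obtain ⟨δ, hδ, hq⟩ := q_lower_half θ y hy
  have hpi := Real.pi_pos
  have hsum := summable_rows θ y hy ((κ / 2 : ℝ) : ℂ) (by rw [ofReal_re]; positivity)
  simp only [norm_exp_q, ofReal_re] at hsum
  refine ⟨(∑' p : {p : ℤ × ℤ // Half p}, Real.exp (-(Real.pi * q θ y p.1 * (κ / 2)))) + 1,
    Real.pi * δ / 2, ?_, by positivity, fun x hx => ?_⟩
  · have : 0 ≤ ∑' p : {p : ℤ × ℤ // Half p}, Real.exp (-(Real.pi * q θ y p.1 * (κ / 2))) :=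
      tsum_nonneg fun _ => (Real.exp_pos _).le
    linarith
  · have hx0 : 0 < x.re := lt_of_lt_of_le hκ hx
    have h1 := norm_tsum_le_tsum_norm (summable_rows θ y hy x hx0)
    refine h1.trans ?_
    have h2 : ∀ p : {p : ℤ × ℤ // Half p}, ‖cexp (-(Real.pi * q θ y p.1 : ℝ) * x)‖ ≤
        Real.exp (-(Real.pi * q θ y p.1 * (κ / 2))) *
          Real.exp (-(Real.pi * δ / 2 * x.re)) := by
      intro p
      rw [norm_exp_q, ← Real.exp_add]
      apply Real.exp_le_exp.mpr
      have h3 := hq p.1 p.2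
      have h4 : Real.pi * δ * x.re ≤ Real.pi * q θ y p.1 * x.re := by
        have := mul_le_mul_of_nonneg_left h3 hpi.le
        exact mul_le_mul_of_nonneg_right this hx0.le
      have h5 : Real.pi * q θ y p.1 * κ ≤ Real.pi * q θ y p.1 * x.re := by
        have : 0 ≤ Real.pi * q θ y p.1 := mul_nonneg hpi.le (hδ.le.trans h3)
        exact mul_le_mul_of_nonneg_left hx this
      linarith
    have h6 := Summable.tsum_le_tsum h2 (summable_rows θ y hy x hx0) (hsum.mul_right _)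
    rw [tsum_mul_right] at h6
    refine h6.trans ?_
    have := Real.exp_pos (-(Real.pi * δ / 2 * x.re))
    nlinarith

theorem exp_neg_le_pow (δ : ℝ) (hδ : 0 < δ) (m : ℕ) : ∃ C : ℝ, 0 < C ∧ ∀ X : ℝ, 0 < X →
    Real.exp (-(δ * X)) ≤ C / X ^ m := by
  refine ⟨(m.factorial : ℝ) / δ ^ m, by positivity, fun X hX => ?_⟩
  have h := Real.pow_div_factorial_le_exp (δ * X) (by positivity) m
  rw [Real.exp_neg, div_div, inv_le_comm₀ (Real.exp_pos _) (by positivity), inv_div]
  rwa [← mul_pow]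

/-- Decay of `F` in a closed strip. -/
theorem F_decay {ι : Type} [Fintype ι] (c : ι → ℂ) (θ y : ι → ℝ) (hy : ∀ i, 1 / 4 ≤ y i)
    (hc : ∑ i, c i = 0) (α : ℝ) (hα : |α| < Real.pi / 2) (m : ℕ) : ∃ C : ℝ, 0 < C ∧
    ∀ u β : ℝ, |β| ≤ |α| → ‖F c θ y (cexp (u + β * I))‖ ≤ C * Real.exp (-(m * |u|)) := by
  have hy' : ∀ i, 0 < y i := fun i => by linarith [hy i]
  have hκ : 0 < Real.cos |α| := Real.cos_pos_of_mem_Ioo
    ⟨by linarith [abs_nonneg α, Real.pi_pos], hα⟩
  choose C δ hC hδ hdec using fun i => theta_decay (θ i) (y i) (hy' i) (Real.cos |α|) hκ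
  choose B hB hpow using fun i => exp_neg_le_pow (δ i * Real.cos |α|) (mul_pos (hδ i) hκ) (m + 1)
  set K : ℝ := (∑ i, ‖c i‖ * (C i * B i)) + 1 with hK
  have hK0 : 0 < K := by
    have : 0 ≤ ∑ i, ‖c i‖ * (C i * B i) := Finset.sum_nonneg fun i _ =>
      mul_nonneg (norm_nonneg _) (mul_nonneg (hC i).le (hB i).le)
    linarith
  have key : ∀ u β : ℝ, 0 ≤ u → |β| ≤ |α| →
      ‖F c θ y (cexp (u + β * I))‖ ≤ K * Real.exp (-(m * |u|)) := by
    intro u β hu hβ
    have hcos : Real.cos |α| ≤ Real.cos β := by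
      rw [← Real.cos_abs β]
      exact Real.cos_le_cos_of_nonneg_of_le_pi (abs_nonneg _) (by linarith [Real.pi_pos]) hβ
    have hre : (cexp (u + β * I)).re = Real.exp u * Real.cos β := by
      rw [exp_re]
      simp
    have hu1 : 1 ≤ Real.exp u := Real.one_le_exp hu
    have hre1 : Real.exp u * Real.cos |α| ≤ (cexp (u + β * I)).re := by
      rw [hre]
      exact mul_le_mul_of_nonneg_left hcos (Real.exp_pos _).le
    have hre2 : Real.cos |α| ≤ (cexp (u + β * I)).re := by nlinarith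
    have hre0 : 0 < (cexp (u + β * I)).re := lt_of_lt_of_le hκ hre2
    rw [F_eq c θ y hy hc _ hre0, norm_mul]
    have hnx : ‖cexp (u + β * I) ^ (1 / 2 : ℂ)‖ ≤ Real.exp u := by
      have h1 : ((1 / 2 : ℂ)) = ((1 / 2 : ℝ) : ℂ) := by push_cast; rfl
      rw [h1, norm_cpow_real, norm_exp]
      simp only [add_re, ofReal_re, mul_re, I_re, mul_zero, ofReal_im, I_im, mul_one, sub_self,
        add_zero]
      rw [← Real.exp_mul]
      apply Real.exp_le_exp.mpr
      linarith
    have hsum : ‖∑ i, c i * ∑' p : {p : ℤ × ℤ // Half p},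
        cexp (-(Real.pi * q (θ i) (y i) p.1 : ℝ) * cexp (u + β * I))‖ ≤
        K * (1 / Real.exp u ^ (m + 1)) := by
      refine (norm_sum_le _ _).trans ?_
      have h1 : ∀ i ∈ Finset.univ, ‖c i * ∑' p : {p : ℤ × ℤ // Half p},
          cexp (-(Real.pi * q (θ i) (y i) p.1 : ℝ) * cexp (u + β * I))‖ ≤
          ‖c i‖ * (C i * B i) * (1 / Real.exp u ^ (m + 1)) := by
        intro i _
        rw [norm_mul, mul_assoc, mul_assoc]
        refine mul_le_mul_of_nonneg_left ?_ (norm_nonneg _)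
        refine (hdec i _ hre2).trans (mul_le_mul_of_nonneg_left ?_ (hC i).le)
        have h2 := hpow i (Real.exp u) (Real.exp_pos _)
        rw [div_eq_mul_one_div] at h2
        refine le_trans (Real.exp_le_exp.mpr ?_) h2
        have h3 := mul_le_mul_of_nonneg_left hre1 (hδ i).le
        linarith
      refine (Finset.sum_le_sum h1).trans ?_
      rw [← Finset.sum_mul]
      refine mul_le_mul_of_nonneg_right ?_ (by positivity)
      rw [hK]
      linarith
    refine (mul_le_mul hnx hsum (norm_nonneg _) (Real.exp_pos _).le).trans ?_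
    rw [abs_of_nonneg hu]
    have h4 : Real.exp (-(m * u)) = 1 / Real.exp u ^ m := by
      rw [Real.exp_neg, ← Real.exp_nat_mul, one_div]
    rw [h4, pow_succ]
    have h5 : 0 < Real.exp u := Real.exp_pos _
    apply le_of_eq
    field_simp
  refine ⟨K, hK0, fun u β hβ => ?_⟩
  rcases le_or_gt 0 u with hu | hu
  · exact key u β hu hβ
  · have h := key (-u) (-β) (by linarith) (by rwa [abs_neg])
    rw [abs_neg] at h
    have h1 : cexp ((-u : ℝ) + (-β : ℝ) * I) = (cexp (u + β * I))⁻¹ := by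
      rw [← exp_neg]
      congr 1
      push_cast
      ring
    rwa [h1, F_inv c θ y _ (exp_ne_zero _)] at h

/-- `F` is holomorphic in the right half plane. -/
theorem F_diff {ι : Type} [Fintype ι] (c : ι → ℂ) (θ y : ι → ℝ) (hy : ∀ i, 1 / 4 ≤ y i)
    (hc : ∑ i, c i = 0) (x : ℂ) (hx : 0 < x.re) : DifferentiableAt ℂ (F c θ y) x := by
  have hy' : ∀ i, 0 < y i := fun i => by linarith [hy i]
  have hopen : IsOpen {z : ℂ | x.re / 2 < z.re} := isOpen_lt continuous_const continuous_re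
  have hmem : {z : ℂ | x.re / 2 < z.re} ∈ 𝓝 x := hopen.mem_nhds (by
    change x.re / 2 < x.re
    linarith)
  have h1 : ∀ i, DifferentiableAt ℂ (fun z : ℂ => ∑' p : {p : ℤ × ℤ // Half p},
      cexp (-(Real.pi * q (θ i) (y i) p.1 : ℝ) * z)) x := by
    intro i
    have hs := summable_rows (θ i) (y i) (hy' i) ((x.re / 2 : ℝ) : ℂ) (by
      rw [ofReal_re]; positivity)
    simp only [norm_exp_q, ofReal_re] at hs
    refine (differentiableOn_tsum_of_summable_norm hs (fun p => ?_) hopen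
      (fun p w hw => ?_)).differentiableAt hmem
    · fun_prop
    · rw [norm_exp_q]
      apply Real.exp_le_exp.mpr
      have hw' : x.re / 2 < w.re := hw
      have h3 : 0 ≤ Real.pi * q (θ i) (y i) p.1 :=
        mul_nonneg Real.pi_pos.le (q_nonneg _ _ (hy' i) _)
      nlinarith
  have h2 : DifferentiableAt ℂ (fun z : ℂ => z ^ (1 / 2 : ℂ) * ∑ i, c i *
      ∑' p : {p : ℤ × ℤ // Half p}, cexp (-(Real.pi * q (θ i) (y i) p.1 : ℝ) * z)) x := by
    refine DifferentiableAt.mul ?_ ?_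
    · exact (differentiableAt_id).cpow_const (Or.inl hx)
    · exact DifferentiableAt.fun_sum fun i _ => (h1 i).const_mul (c i)
  refine h2.congr_of_eventuallyEq ?_
  filter_upwards [hmem] with z hz
  have hz' : x.re / 2 < z.re := hz
  exact F_eq c θ y hy hc z (by linarith)

theorem exp_re_pos (u β : ℝ) (hβ : |β| < Real.pi / 2) : 0 < (cexp (u + β * I)).re := by
  have hre : (cexp (u + β * I)).re = Real.exp u * Real.cos β := by
    rw [exp_re]
    simp
  rw [hre]
  exact mul_pos (Real.exp_pos _) (Real.cos_pos_of_mem_Ioo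
    ⟨by linarith [(abs_lt.mp hβ).1], (abs_lt.mp hβ).2⟩)

/-- Summability of the Dirichlet series. -/
theorem summable_dirichlet (θ y : ℝ) (hy : 0 < y) (σ : ℝ) (hσ : 1 < σ) :
    Summable (fun p : {p : ℤ × ℤ // Half p} => (Real.pi * q θ y p.1) ^ (-σ)) := by
  obtain ⟨δ, hδ, hq⟩ := q_lower θ y hy
  have hpi := Real.pi_pos
  have h1 := (EisensteinSeries.summable_one_div_norm_rpow (k := 2 * σ) (by linarith)).mul_left
    ((Real.pi * δ) ^ (-σ))
  have h2 := ((finTwoArrowEquiv ℤ).symm.summable_iff.mpr h1).comp_injective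
    (Subtype.val_injective : Function.Injective (Subtype.val : {p : ℤ × ℤ // Half p} → ℤ × ℤ))
  refine Summable.of_nonneg_of_le (fun p => ?_) (fun p => ?_) h2
  · exact Real.rpow_nonneg (mul_nonneg hpi.le (q_nonneg θ y hy p.1)) _
  · obtain ⟨⟨m, n⟩, hp⟩ := p
    simp only [Function.comp_apply, finTwoArrowEquiv_symm_apply]
    have hv : 0 < ‖(![m, n] : Fin 2 → ℤ)‖ := by
      rw [norm_pos_iff]
      intro h
      have h0 := congrFun h 0
      have h1 := congrFun h 1
      simp at h0 h1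
      simp [Half, h0, h1] at hp
    have hle : ‖(![m, n] : Fin 2 → ℤ)‖ ^ 2 ≤ (m : ℝ) ^ 2 + (n : ℝ) ^ 2 := by
      have : ‖(![m, n] : Fin 2 → ℤ)‖ ≤ Real.sqrt ((m : ℝ) ^ 2 + (n : ℝ) ^ 2) := by
        rw [pi_norm_le_iff_of_nonneg (Real.sqrt_nonneg _)]
        intro i
        fin_cases i
        · simp only [Fin.zero_eta, Matrix.cons_val_zero, Int.norm_eq_abs]
          exact Real.abs_le_sqrt (by nlinarith [sq_nonneg (n : ℝ)])
        · simp only [Fin.mk_one, Matrix.cons_val_one, Matrix.cons_val_fin_one, Int.norm_eq_abs]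
          exact Real.abs_le_sqrt (by nlinarith [sq_nonneg (m : ℝ)])
      calc _ ≤ Real.sqrt ((m : ℝ) ^ 2 + (n : ℝ) ^ 2) ^ 2 := by gcongr
        _ = _ := Real.sq_sqrt (by positivity)
    have h3 : Real.pi * δ * ‖(![m, n] : Fin 2 → ℤ)‖ ^ 2 ≤ Real.pi * q θ y (m, n) := by
      rw [mul_assoc]
      refine mul_le_mul_of_nonneg_left (le_trans ?_ (hq (m, n))) hpi.le
      exact mul_le_mul_of_nonneg_left hle hδ.le
    have h4 := Real.rpow_le_rpow_of_nonpos (by positivity) h3 (by linarith : -σ ≤ 0)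
    refine h4.trans (le_of_eq ?_)
    rw [Real.mul_rpow (by positivity) (by positivity), ← Real.rpow_natCast, ← Real.rpow_mul hv.le]
    congr 2
    push_cast
    ring

/-- Exponential substitution in the Mellin transform. -/
theorem mellin_exp (f : ℝ → ℂ) (s : ℂ) : mellin f s = ∫ u : ℝ, cexp (s * u) * f (Real.exp u) := by
  have himg : Real.exp '' Set.univ = Set.Ioi 0 := by rw [Set.image_univ, Real.range_exp]
  rw [mellin, ← himg, integral_image_eq_integral_abs_deriv_smul MeasurableSet.univ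
    (fun x _ => (Real.hasDerivAt_exp x).hasDerivWithinAt) Real.exp_injective.injOn,
    Measure.restrict_univ]
  refine integral_congr_ae (Eventually.of_forall fun u => ?_)
  simp only [abs_of_pos (Real.exp_pos u), real_smul, smul_eq_mul]
  rw [← mul_assoc]
  congr 1
  have h1 : ((Real.exp u : ℝ) : ℂ) ≠ 0 := by exact_mod_cast (Real.exp_pos u).ne'
  rw [cpow_sub _ _ h1, cpow_one, mul_div_cancel₀ _ h1, cpow_def_of_ne_zero h1,
    ← ofReal_log (Real.exp_pos u).le, Real.log_exp]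
  congr 1
  ring

/-- Mellin transform of `F` on the real line, for `Re s > 1`. -/
theorem mellin_F {ι : Type} [Fintype ι] (c : ι → ℂ) (θ y : ι → ℝ) (hy : ∀ i, 1 / 4 ≤ y i)
    (hc : ∑ i, c i = 0) (s : ℂ) (hs : 1 < s.re) :
    mellin (fun r : ℝ => F c θ y (r : ℂ)) (s - 1 / 2) =
      Complex.Gamma s * ∑ i, c i * ∑' p : {p : ℤ × ℤ // Half p},
          ((Real.pi * q (θ i) (y i) p.1 : ℝ) : ℂ) ^ (-s) := by
  have hy' : ∀ i, 0 < y i := fun i => by linarith [hy i]
  set G : ℝ → ℂ := fun r => ∑ i, c i * ∑' p : {p : ℤ × ℤ // Half p},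
      cexp (-(Real.pi * q (θ i) (y i) p.1 : ℝ) * (r : ℂ)) with hG
  have h1 : mellin (fun r : ℝ => F c θ y (r : ℂ)) (s - 1 / 2) =
      mellin (fun r : ℝ => (r : ℂ) ^ (1 / 2 : ℂ) • G r) (s - 1 / 2) := by
    refine setIntegral_congr_fun measurableSet_Ioi fun r hr => ?_
    have hr' : (0 : ℝ) < r := hr
    simp only [hG, smul_eq_mul]
    rw [F_eq c θ y hy hc (r : ℂ) (by rwa [ofReal_re])]
  rw [h1, mellin_cpow_smul, sub_add_cancel]
  have hsum : ∀ i, Summable (fun p : {p : ℤ × ℤ // Half p} =>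
      (Real.pi * q (θ i) (y i) p.1) ^ (-s.re)) := fun i =>
    summable_dirichlet (θ i) (y i) (hy' i) s.re hs
  have hprod : Summable (fun j : ι × {p : ℤ × ℤ // Half p} =>
      ‖c j.1‖ / (Real.pi * q (θ j.1) (y j.1) j.2.1) ^ s.re) := by
    rw [summable_prod_of_nonneg (fun j => by
      have := mul_nonneg Real.pi_pos.le (q_nonneg (θ j.1) (y j.1) (hy' j.1) j.2.1)
      exact div_nonneg (norm_nonneg _) (Real.rpow_nonneg this _))]
    refine ⟨fun i => ?_, Summable.of_finite⟩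
    refine ((hsum i).mul_left ‖c i‖).congr fun p => ?_
    rw [Real.rpow_neg (mul_nonneg Real.pi_pos.le (q_nonneg (θ i) (y i) (hy' i) p.1)),
      div_eq_mul_inv]
  have hM := hasSum_mellin (a := fun j : ι × {p : ℤ × ℤ // Half p} => c j.1)
    (p := fun j => Real.pi * q (θ j.1) (y j.1) j.2.1) (F := G) (s := s)
    (fun j => Or.inr (mul_pos Real.pi_pos (q_pos _ _ (hy' _) _ j.2.2)))
    (by linarith) (fun r hr => by
      have hr' : (0 : ℝ) < r := hr
      have h2 : Summable (fun j : ι × {p : ℤ × ℤ // Half p} =>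
          ‖c j.1 * (Real.exp (-(Real.pi * q (θ j.1) (y j.1) j.2.1) * r) : ℂ)‖) := by
        rw [summable_prod_of_nonneg (fun j => norm_nonneg _)]
        refine ⟨fun i => ?_, Summable.of_finite⟩
        refine ((summable_rows (θ i) (y i) (hy' i) (r : ℂ) (by rwa [ofReal_re])).mul_left
          ‖c i‖).congr fun p => ?_
        rw [norm_mul]
        congr 2
        push_cast
        ring_nf
      have h3 := h2.of_norm.hasSum
      rw [h2.of_norm.tsum_prod, tsum_fintype] at h3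
      have h4 : G r = ∑ i, ∑' p : {p : ℤ × ℤ // Half p},
          c i * (Real.exp (-(Real.pi * q (θ i) (y i) p.1) * r) : ℂ) := by
        simp only [hG]
        refine Finset.sum_congr rfl fun i _ => ?_
        rw [tsum_mul_left]
        congr 1
        refine tsum_congr fun p => ?_
        push_cast
        ring_nf
      rw [h4]
      exact h3) hprod
  rw [← hM.tsum_eq, hM.summable.tsum_prod, tsum_fintype, Finset.mul_sum]
  refine Finset.sum_congr rfl fun i _ => ?_
  rw [← tsum_mul_left, ← tsum_mul_left]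
  refine tsum_congr fun p => ?_
  rw [cpow_neg]
  ring

theorem F_continuous {ι : Type} [Fintype ι] (c : ι → ℂ) (θ y : ι → ℝ) (hy : ∀ i, 1 / 4 ≤ y i)
    (hc : ∑ i, c i = 0) (α : ℝ) (hα : |α| < Real.pi / 2) :
    Continuous (fun u : ℝ => F c θ y (cexp (u + α * I))) := by
  rw [continuous_iff_continuousAt]
  intro u
  have h1 := (F_diff c θ y hy hc _ (exp_re_pos u α hα)).continuousAt
  exact ContinuousAt.comp (f := fun u : ℝ => cexp (u + α * I)) h1 (by fun_prop)

theorem exp_two_abs (u : ℝ) : Real.exp (-((2 : ℕ) * |u|)) ≤ (1 + u ^ 2)⁻¹ := by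
  rw [Real.exp_neg]
  refine inv_anti₀ (by positivity) ?_
  have h1 : |u| + 1 ≤ Real.exp |u| := Real.add_one_le_exp _
  have h2 : Real.exp ((2 : ℕ) * |u|) = Real.exp |u| ^ 2 := by rw [Real.exp_nat_mul]
  rw [h2, ← sq_abs u]
  nlinarith [abs_nonneg u]

/-- Integrability of `F` times a bounded continuous function on a rotated ray. -/
theorem F_integrable {ι : Type} [Fintype ι] (c : ι → ℂ) (θ y : ι → ℝ) (hy : ∀ i, 1 / 4 ≤ y i)
    (hc : ∑ i, c i = 0) (α : ℝ) (hα : |α| < Real.pi / 2) :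
    Integrable (fun u : ℝ => F c θ y (cexp (u + α * I))) := by
  obtain ⟨C, hC, hdec⟩ := F_decay c θ y hy hc α hα 2
  refine (integrable_inv_one_add_sq.const_mul C).mono'
    (F_continuous c θ y hy hc α hα).aestronglyMeasurable (Eventually.of_forall fun u => ?_)
  exact (hdec u α le_rfl).trans (mul_le_mul_of_nonneg_left (exp_two_abs u) hC.le)

/-- Rotation of the path of integration. -/
theorem rotate {ι : Type} [Fintype ι] (c : ι → ℂ) (θ y : ι → ℝ) (hy : ∀ i, 1 / 4 ≤ y i)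
    (hc : ∑ i, c i = 0) (α : ℝ) (hα : |α| < Real.pi / 2) (t : ℝ) :
    ∫ u : ℝ, F c θ y (cexp (u + α * I)) * cexp (I * t * u) =
      (Real.exp (α * t) : ℂ) * ∫ u : ℝ, F c θ y (cexp u) * cexp (I * t * u) := by
  obtain ⟨C, hC, hdec⟩ := F_decay c θ y hy hc α hα 2
  set g : ℂ → ℂ := fun w => F c θ y (cexp w) * cexp (I * t * w) with hg
  have hnorm : ∀ u β : ℝ, ‖cexp (I * t * (u + β * I))‖ = Real.exp (-(t * β)) := by
    intro u β
    rw [norm_exp]
    congr 1
    simp
  have hint : ∀ β : ℝ, |β| ≤ |α| → Integrable (fun u : ℝ => g (u + β * I)) := by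
    intro β hβ
    have hβ' : |β| < Real.pi / 2 := lt_of_le_of_lt hβ hα
    refine (F_integrable c θ y hy hc β hβ').mul_bdd (c := Real.exp (-(t * β))) ?_ ?_
    · exact Continuous.aestronglyMeasurable (by fun_prop)
    · exact Eventually.of_forall fun u => (hnorm u β).le
  have hrect : ∀ N : ℝ, (∫ x : ℝ in (-N)..N, g (x + (0 : ℝ) * I)) -
      (∫ x : ℝ in (-N)..N, g (x + α * I)) + I • (∫ v : ℝ in (0 : ℝ)..α, g (N + v * I)) -
      I • (∫ v : ℝ in (0 : ℝ)..α, g ((-N : ℝ) + v * I)) = 0 := by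
    intro N
    have h := integral_boundary_rect_eq_zero_of_differentiableOn g ((-N : ℝ) : ℂ)
      ((N : ℂ) + α * I) (fun w hw => ?_)
    · simpa only [ofReal_re, ofReal_im, add_re, add_im, mul_re, mul_im, I_re, I_im, mul_zero,
        mul_one, zero_add, add_zero, sub_self, zero_mul, sub_zero] using h
    · have him : w.im ∈ Set.uIcc 0 α := by
        have := hw.2
        simpa using this
      have habs : |w.im| ≤ |α| := by
        have := Set.abs_sub_left_of_mem_uIcc him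
        simpa using this
      have hre := exp_re_pos w.re w.im (lt_of_le_of_lt habs hα)
      rw [re_add_im] at hre
      apply DifferentiableAt.differentiableWithinAt
      refine DifferentiableAt.mul ?_ (by fun_prop)
      exact DifferentiableAt.comp (g := F c θ y) (f := cexp) w (F_diff c θ y hy hc _ hre)
        (by fun_prop)
  have hside : ∀ N : ℝ, ‖∫ v : ℝ in (0 : ℝ)..α, g (N + v * I)‖ ≤
      C * (1 + N ^ 2)⁻¹ * Real.exp (|t| * |α|) * |α - 0| := by
    intro N
    refine intervalIntegral.norm_integral_le_of_norm_le_const fun v hv => ?_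
    have habs : |v| ≤ |α| := by
      have := Set.abs_sub_left_of_mem_uIcc (Set.uIoc_subset_uIcc hv)
      simpa using this
    simp only [hg]
    rw [norm_mul, hnorm]
    have h1 : ‖F c θ y (cexp (N + v * I))‖ ≤ C * (1 + N ^ 2)⁻¹ :=
      (hdec N v habs).trans (mul_le_mul_of_nonneg_left (exp_two_abs N) hC.le)
    refine mul_le_mul h1 (Real.exp_le_exp.mpr ?_) (Real.exp_pos _).le (by positivity)
    calc -(t * v) ≤ |t * v| := neg_le_abs _
      _ = |t| * |v| := abs_mul _ _
      _ ≤ |t| * |α| := mul_le_mul_of_nonneg_left habs (abs_nonneg _)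
  have hinv : Tendsto (fun N : ℝ => (1 + N ^ 2)⁻¹) atTop (𝓝 0) := by
    apply Tendsto.inv_tendsto_atTop
    exact tendsto_atTop_add_const_left _ _ (tendsto_pow_atTop (by norm_num))
  have hside1 : Tendsto (fun N : ℝ => ∫ v : ℝ in (0 : ℝ)..α, g (N + v * I)) atTop (𝓝 0) := by
    refine squeeze_zero_norm hside ?_
    have := ((hinv.const_mul C).mul_const (Real.exp (|t| * |α|))).mul_const |α - 0|
    simpa using this
  have hside2 : Tendsto (fun N : ℝ => ∫ v : ℝ in (0 : ℝ)..α, g ((-N : ℝ) + v * I)) atTop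
      (𝓝 0) := by
    refine squeeze_zero_norm (fun N => hside (-N)) ?_
    have := ((hinv.const_mul C).mul_const (Real.exp (|t| * |α|))).mul_const |α - 0|
    simpa using this
  have hA := intervalIntegral_tendsto_integral (hint 0 (by simp)) tendsto_neg_atTop_atBot
    (tendsto_id (α := ℝ))
  have hB := intervalIntegral_tendsto_integral (hint α le_rfl) tendsto_neg_atTop_atBot
    (tendsto_id (α := ℝ))
  have hlim := ((hA.sub hB).add (hside1.const_smul I)).sub (hside2.const_smul I)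
  have hlim0 : Tendsto (fun N : ℝ => (∫ x : ℝ in (-N)..N, g (x + (0 : ℝ) * I)) -
      (∫ x : ℝ in (-N)..N, g (x + α * I)) + I • (∫ v : ℝ in (0 : ℝ)..α, g (N + v * I)) -
      I • (∫ v : ℝ in (0 : ℝ)..α, g ((-N : ℝ) + v * I))) atTop (𝓝 0) := by
    simp only [hrect]
    exact tendsto_const_nhds
  have heq := tendsto_nhds_unique hlim hlim0
  simp only [smul_zero, add_zero, sub_zero] at heq
  have hA' : ∫ x : ℝ, g (x + (0 : ℝ) * I) = ∫ u : ℝ, F c θ y (cexp u) * cexp (I * t * u) := by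
    refine integral_congr_ae (Eventually.of_forall fun u => ?_)
    simp [hg]
  have hB' : ∫ x : ℝ, g (x + α * I) = (Real.exp (-(α * t)) : ℂ) *
      ∫ u : ℝ, F c θ y (cexp (u + α * I)) * cexp (I * t * u) := by
    rw [← integral_const_mul]
    refine integral_congr_ae (Eventually.of_forall fun u => ?_)
    simp only [hg]
    have : cexp (I * t * (u + α * I)) = (Real.exp (-(α * t)) : ℂ) * cexp (I * t * u) := by
      rw [ofReal_exp, ← exp_add]
      congr 1
      push_cast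
      linear_combination (t * α : ℂ) * I_mul_I
    rw [this]
    ring
  rw [hA', hB', sub_eq_zero] at heq
  rw [heq, ← mul_assoc, ← ofReal_mul, ← Real.exp_add, add_neg_cancel, Real.exp_zero, ofReal_one,
    one_mul]

/-- The Mellin transform of `F` is entire. -/
theorem mellin_F_diff {ι : Type} [Fintype ι] (c : ι → ℂ) (θ y : ι → ℝ) (hy : ∀ i, 1 / 4 ≤ y i)
    (hc : ∑ i, c i = 0) (s : ℂ) :
    DifferentiableAt ℂ (mellin (fun r : ℝ => F c θ y (r : ℂ))) s := by
  obtain ⟨m, hm⟩ := exists_nat_ge (|s.re| + 1)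
  obtain ⟨C, hC, hdec⟩ := F_decay c θ y hy hc 0 (by simpa using Real.pi_pos) m
  have hdec' : ∀ r : ℝ, 0 < r → ‖F c θ y (r : ℂ)‖ ≤ C * Real.exp (-(m * |Real.log r|)) := by
    intro r hr
    have h := hdec (Real.log r) 0 le_rfl
    have h1 : cexp ((Real.log r : ℝ) + (0 : ℝ) * I) = (r : ℂ) := by
      rw [ofReal_zero, zero_mul, add_zero, ← ofReal_exp, Real.exp_log hr]
    rwa [h1] at h
  have hcont : ContinuousOn (fun r : ℝ => F c θ y (r : ℂ)) (Set.Ioi 0) := by
    intro r hr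
    have hr' : (0 : ℝ) < r := hr
    have h1 := (F_diff c θ y hy hc (r : ℂ) (by rwa [ofReal_re])).continuousAt
    exact (ContinuousAt.comp (f := fun r : ℝ => (r : ℂ)) h1
      continuous_ofReal.continuousAt).continuousWithinAt
  refine mellin_differentiableAt_of_isBigO_rpow (a := s.re + 1) (b := s.re - 1)
    (hcont.locallyIntegrableOn measurableSet_Ioi) ?_ (by linarith) ?_ (by linarith)
  · refine IsBigO.of_bound C ?_
    filter_upwards [eventually_ge_atTop 1] with r hr
    have hr0 : 0 < r := by linarith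
    refine (hdec' r hr0).trans (mul_le_mul_of_nonneg_left ?_ hC.le)
    rw [Real.norm_of_nonneg (Real.rpow_nonneg hr0.le _), Real.rpow_def_of_pos hr0]
    apply Real.exp_le_exp.mpr
    have hl : 0 ≤ Real.log r := Real.log_nonneg hr
    rw [abs_of_nonneg hl]
    nlinarith [le_abs_self s.re]
  · refine IsBigO.of_bound C ?_
    filter_upwards [Ioc_mem_nhdsGT (zero_lt_one : (0 : ℝ) < 1)] with r hr
    refine (hdec' r hr.1).trans (mul_le_mul_of_nonneg_left ?_ hC.le)
    rw [Real.norm_of_nonneg (Real.rpow_nonneg hr.1.le _), Real.rpow_def_of_pos hr.1]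
    apply Real.exp_le_exp.mpr
    have hl : Real.log r ≤ 0 := Real.log_nonpos hr.1.le hr.2
    rw [abs_of_nonpos hl]
    nlinarith [neg_abs_le s.re]

theorem lambda_exists {ι : Type} [Fintype ι] (c : ι → ℂ) (θ y : ι → ℝ)
    (hy : ∀ i, 1 / 4 ≤ y i) (hc : ∑ i, c i = 0) :
    ∃ Λ : ℂ → ℂ, Differentiable ℂ Λ ∧
      (∀ s : ℂ, 1 < s.re →
        (∀ i, Summable (fun p : {p : ℤ × ℤ // Half p} =>
          ‖((Real.pi * q (θ i) (y i) p.1 : ℝ) : ℂ) ^ (-s)‖)) ∧
        Λ s = Complex.Gamma s * ∑ i, c i * ∑' p : {p : ℤ × ℤ // Half p},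
          ((Real.pi * q (θ i) (y i) p.1 : ℝ) : ℂ) ^ (-s)) ∧
      (∀ α : ℝ, |α| < Real.pi / 2 →
        Integrable (fun u : ℝ => F c θ y (cexp (u + α * I))) ∧
        ∀ t : ℝ, ∫ u : ℝ, F c θ y (cexp (u + α * I)) * cexp (I * t * u) =
          (Real.exp (α * t) : ℂ) * Λ (1 / 2 + t * I)) := by
  have hy' : ∀ i, 0 < y i := fun i => by linarith [hy i]
  refine ⟨fun s => mellin (fun r : ℝ => F c θ y (r : ℂ)) (s - 1 / 2), fun s => ?_,
    fun s hs => ⟨fun i => ?_, mellin_F c θ y hy hc s hs⟩, fun α hα =>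
      ⟨F_integrable c θ y hy hc α hα, fun t => ?_⟩⟩
  · exact DifferentiableAt.comp (f := fun s : ℂ => s - 1 / 2) s
      (mellin_F_diff c θ y hy hc _) (by fun_prop)
  · refine (summable_dirichlet (θ i) (y i) (hy' i) s.re hs).congr fun p => ?_
    rw [norm_cpow_eq_rpow_re_of_pos (mul_pos Real.pi_pos (q_pos _ _ (hy' i) _ p.2)), neg_re]
  · rw [rotate c θ y hy hc α hα t]
    simp only
    rw [mellin_exp]
    congr 1
    refine integral_congr_ae (Eventually.of_forall fun u => ?_)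
    simp only
    rw [ofReal_exp, mul_comm]
    congr 2
    ring

end Pool.Hhelper76.CL
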