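import Pool.Agent.Hhelper76.CL.Bounds

/-!
# CL module F1 (LowerErr): `R(θ, y, 0, u) = e^{u/2} Gs(e^u / y) + error`

Uses module B (`W_decay`, `Z_indep`, ... ; stub `Bounds.lean`).

PAPER PROOF. `α = 0`, `x = e^u`. `Gs(w) = ∑_{m≥1} exp(-π w m²)`.
`Gs_le`: compare with `∫_0^∞ exp(-π w t²) dt = 1/(2√w)`. `Gs_exp`: for `w ≥ 1/8` the series is at most
`exp(-π w) ∑_{m≥0} exp(-π w m²) ≤ C exp(-π w)`.
`Gs_theta`: `Real.tsum_exp_neg_mul_int_sq` (Jacobi).
Terms of `S` with `nk = 0`: `1 + 2 Gs(y x) + 2 Gs(y/x)`, so (as in `Z_indep`)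
`R - W = (√y (1 + 2 Gs(y e^u) + 2 Gs(y e^{-u})) - cor)/2`. By `Gs_theta`
`√y (1 + 2Gs(y/x)) = x^{1/2} (1 + 2Gs(x/y))`, `√y (1 + 2Gs(yx)) = x^{-1/2} (1 + 2 Gs(1/(xy)))`.
`u > 0`: `R - W = √y Gs(y e^u) + x^{1/2} Gs(x/y)`, error `√y Gs(y e^u) ≤ C √y exp(-π y e^u)
≤ C √y exp(-e^u/2)` (`y ≥ 1/4`, `π/4 ≥ 1/2`).
`u ≤ 0`: `R - W - x^{1/2} Gs(x/y) = (x^{1/2} + 2√y Gs(yx) - x^{-1/2})/2
= (x^{1/2} + 2 x^{-1/2} Gs(1/(xy)) - √y)/2`, bounded by `C √y` (`x ≤ 1`, `Gs(w) ≤ 1/(2√w)`).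
Add `W_decay`.
-/

open Complex MeasureTheory

namespace Pool.Hhelper76.CL

/-- `Gs(w) = ∑_{m ≥ 1} exp(-π w m²)`. -/
noncomputable def Gs (w : ℝ) : ℝ := ∑' m : ℕ, Real.exp (-Real.pi * w * ((m : ℝ) + 1) ^ 2)

theorem gs_term_le (w : ℝ) (hw : 0 < w) (m : ℕ) :
    Real.exp (-Real.pi * w * ((m : ℝ) + 1) ^ 2) ≤
      Real.exp (-Real.pi * w) * Real.exp (-Real.pi * w) ^ m := by
  rw [← pow_succ', ← Real.exp_nat_mul, Real.exp_le_exp]
  have hm : (0 : ℝ) ≤ m := Nat.cast_nonneg m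
  have h1 : ((m : ℝ) + 1) ≤ ((m : ℝ) + 1) ^ 2 := by nlinarith
  have h2 : 0 < Real.pi * w := mul_pos Real.pi_pos hw
  push_cast
  nlinarith

theorem exp_lt_one' (w : ℝ) (hw : 0 < w) : Real.exp (-Real.pi * w) < 1 := by
  rw [Real.exp_lt_one_iff]
  have h2 : 0 < Real.pi * w := mul_pos Real.pi_pos hw
  linarith

theorem Gs_summable (w : ℝ) (hw : 0 < w) :
    Summable (fun m : ℕ => Real.exp (-Real.pi * w * ((m : ℝ) + 1) ^ 2)) := by
  refine Summable.of_nonneg_of_le (fun m => (Real.exp_pos _).le) (gs_term_le w hw) ?_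
  exact (summable_geometric_of_lt_one (Real.exp_pos _).le (exp_lt_one' w hw)).mul_left _

theorem Gs_nonneg (w : ℝ) : 0 ≤ Gs w := tsum_nonneg fun _ => (Real.exp_pos _).le

theorem Gs_le (w : ℝ) (hw : 0 < w) : Gs w ≤ 1 / (2 * Real.sqrt w) := by
  have hpw : 0 < Real.pi * w := mul_pos Real.pi_pos hw
  have hint := integrable_exp_neg_mul_sq hpw
  have hval : ∫ x in Set.Ioi (0 : ℝ), Real.exp (-(Real.pi * w) * x ^ 2) = 1 / (2 * Real.sqrt w) := by
    rw [integral_gaussian_Ioi, div_mul_eq_div_div, div_self Real.pi_ne_zero, Real.sqrt_div zero_le_one,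
      Real.sqrt_one]
    field_simp
  rw [← hval]
  refine Real.tsum_le_of_sum_range_le (fun m => (Real.exp_pos _).le) fun N => ?_
  have hanti : AntitoneOn (fun x : ℝ => Real.exp (-(Real.pi * w) * x ^ 2))
      (Set.Icc 0 (0 + (N : ℝ))) := by
    intro x hx y hy hxy
    rw [Real.exp_le_exp]
    have h1 : x ^ 2 ≤ y ^ 2 := pow_le_pow_left₀ hx.1 hxy 2
    nlinarith
  have h1 := hanti.sum_le_integral
  rw [zero_add] at h1
  have h2 : ∑ i ∈ Finset.range N, Real.exp (-Real.pi * w * ((i : ℝ) + 1) ^ 2) =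
      ∑ i ∈ Finset.range N, Real.exp (-(Real.pi * w) * (0 + ((i + 1 : ℕ) : ℝ)) ^ 2) := by
    refine Finset.sum_congr rfl fun i _ => ?_
    congr 1
    push_cast
    ring
  rw [h2]
  refine h1.trans ?_
  rw [intervalIntegral.integral_of_le (Nat.cast_nonneg N)]
  exact setIntegral_mono_set hint.integrableOn
    (Filter.Eventually.of_forall fun x => (Real.exp_pos _).le)
    (Filter.Eventually.of_forall Set.Ioc_subset_Ioi_self)

theorem Gs_exp : ∃ C : ℝ, 0 < C ∧ ∀ w : ℝ, 1 / 8 ≤ w → Gs w ≤ C * Real.exp (-Real.pi * w) := by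
  have h8 := exp_lt_one' (1 / 8) (by norm_num)
  refine ⟨(1 - Real.exp (-Real.pi * (1 / 8)))⁻¹, inv_pos.mpr (by linarith), fun w hw => ?_⟩
  have hw0 : 0 < w := by linarith
  have hr := exp_lt_one' w hw0
  have hsum := summable_geometric_of_lt_one (Real.exp_pos (-Real.pi * w)).le hr
  have h1 : Gs w ≤ ∑' m : ℕ, Real.exp (-Real.pi * w) * Real.exp (-Real.pi * w) ^ m :=
    (Gs_summable w hw0).tsum_le_tsum (gs_term_le w hw0) (hsum.mul_left _)
  rw [tsum_mul_left, tsum_geometric_of_lt_one (Real.exp_pos _).le hr] at h1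
  refine h1.trans ?_
  rw [mul_comm]
  refine mul_le_mul_of_nonneg_right ?_ (Real.exp_pos _).le
  refine inv_anti₀ (by linarith) ?_
  have h2 : Real.exp (-Real.pi * w) ≤ Real.exp (-Real.pi * (1 / 8)) := by
    rw [Real.exp_le_exp]
    have := Real.pi_pos
    nlinarith
  linarith

theorem hasSum_int_gauss (w : ℝ) (hw : 0 < w) :
    HasSum (fun n : ℤ => Real.exp (-Real.pi * w * (n : ℝ) ^ 2)) (1 + 2 * Gs w) := by
  have h1 : HasSum (fun m : ℕ => Real.exp (-Real.pi * w * ((m : ℝ) + 1) ^ 2)) (Gs w) :=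
    (Gs_summable w hw).hasSum
  have h2 : HasSum (fun n : ℕ => Real.exp (-Real.pi * w * (((n : ℤ) : ℝ)) ^ 2)) (1 + Gs w) := by
    rw [← hasSum_nat_add_iff' 1]
    simpa using h1
  have h3 : HasSum (fun n : ℕ => Real.exp (-Real.pi * w * (((-((n : ℤ) + 1) : ℤ) : ℝ)) ^ 2))
      (Gs w) := by
    have he : (fun n : ℕ => Real.exp (-Real.pi * w * (((-((n : ℤ) + 1) : ℤ) : ℝ)) ^ 2)) =
        fun m : ℕ => Real.exp (-Real.pi * w * ((m : ℝ) + 1) ^ 2) := by
      funext m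
      congr 1
      push_cast
      ring
    rw [he]
    exact h1
  have h4 := HasSum.of_nat_of_neg_add_one
    (f := fun n : ℤ => Real.exp (-Real.pi * w * (n : ℝ) ^ 2)) h2 h3
  rwa [show 1 + Gs w + Gs w = 1 + 2 * Gs w by ring] at h4

theorem Gs_theta (w : ℝ) (hw : 0 < w) : 1 + 2 * Gs w = (1 + 2 * Gs (1 / w)) / Real.sqrt w := by
  have h1 := Real.tsum_exp_neg_mul_int_sq hw
  rw [(hasSum_int_gauss w hw).tsum_eq] at h1
  have h2 : ∑' n : ℤ, Real.exp (-Real.pi / w * (n : ℝ) ^ 2) = 1 + 2 * Gs (1 / w) := by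
    rw [← (hasSum_int_gauss (1 / w) (by positivity)).tsum_eq]
    refine tsum_congr fun n => ?_
    congr 1
    ring
  rw [h2, ← Real.sqrt_eq_rpow] at h1
  rw [h1]
  ring


theorem term_real (θ y X : ℝ) (p : ℤ × ℤ) :
    term θ y (X : ℂ) p =
      ((Real.exp (-Real.pi * (y * X) * (p.1 : ℝ) ^ 2) *
        Real.exp (-Real.pi * (y / X) * (p.2 : ℝ) ^ 2) : ℝ) : ℂ) *
        cexp (2 * Real.pi * I * ((p.1 : ℂ) * (p.2 : ℂ) * (θ : ℂ))) := by
  unfold term
  congr 1
  rw [← Real.exp_add, Complex.ofReal_exp]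
  congr 1
  push_cast
  ring

theorem norm_term_real (θ y X : ℝ) (p : ℤ × ℤ) :
    ‖term θ y (X : ℂ) p‖ =
      Real.exp (-Real.pi * (y * X) * (p.1 : ℝ) ^ 2) *
        Real.exp (-Real.pi * (y / X) * (p.2 : ℝ) ^ 2) := by
  rw [term_real, norm_mul, Complex.norm_real, Real.norm_of_nonneg (by positivity)]
  have h1 : 2 * (Real.pi : ℂ) * I * ((p.1 : ℂ) * (p.2 : ℂ) * (θ : ℂ)) =
      ((2 * Real.pi * (p.1 * p.2 * θ) : ℝ) : ℂ) * I := by
    push_cast
    ring
  rw [h1, Complex.norm_exp_ofReal_mul_I, mul_one]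

theorem summable_term_real (θ y X : ℝ) (hy : 0 < y) (hX : 0 < X) :
    Summable (fun p : ℤ × ℤ => term θ y (X : ℂ) p) := by
  refine Summable.of_norm ?_
  have h1 := (hasSum_int_gauss (y * X) (by positivity)).summable
  have h2 := (hasSum_int_gauss (y / X) (by positivity)).summable
  have h3 := h1.mul_of_nonneg h2 (fun n => (Real.exp_pos _).le) (fun n => (Real.exp_pos _).le)
  refine h3.congr fun p => ?_
  rw [norm_term_real]

theorem S_real_eq (θ y X : ℝ) (hy : 0 < y) (hX : 0 < X) :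
    S θ y (X : ℂ) = (∑' p : {p : ℤ × ℤ // p.1 ≠ 0 ∧ p.2 ≠ 0}, term θ y (X : ℂ) p.1) +
      ((1 + 2 * Gs (y * X) + 2 * Gs (y / X) : ℝ) : ℂ) := by
  classical
  set f : ℤ × ℤ → ℂ := fun p => term θ y (X : ℂ) p with hf
  have hs : Summable f := summable_term_real θ y X hy hX
  set A : Set (ℤ × ℤ) := {p | p.1 ≠ 0 ∧ p.2 ≠ 0} with hA
  have f1 : ∀ n : ℤ, f (n, 0) = ((Real.exp (-Real.pi * (y * X) * (n : ℝ) ^ 2) : ℝ) : ℂ) := by
    intro n
    simp only [hf, term_real, Int.cast_zero]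
    simp
  have f2 : ∀ n : ℤ, f (0, n) = ((Real.exp (-Real.pi * (y / X) * (n : ℝ) ^ 2) : ℝ) : ℂ) := by
    intro n
    simp only [hf, term_real, Int.cast_zero]
    simp
  have h1 : HasSum (fun p : ℤ × ℤ => if p.2 = 0 then f p else 0)
      ((1 + 2 * Gs (y * X) : ℝ) : ℂ) := by
    have hinj : Function.Injective (fun n : ℤ => ((n, 0) : ℤ × ℤ)) := fun a b h =>
      congrArg Prod.fst h
    rw [← hinj.hasSum_iff]
    · have h2 := Complex.hasSum_ofReal.mpr (hasSum_int_gauss (y * X) (by positivity))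
      have he : ((fun p : ℤ × ℤ => if p.2 = 0 then f p else 0) ∘
          fun n : ℤ => ((n, 0) : ℤ × ℤ)) =
          fun n : ℤ => ((Real.exp (-Real.pi * (y * X) * (n : ℝ) ^ 2) : ℝ) : ℂ) := by
        funext n
        simp only [Function.comp_apply, if_true, f1]
      rw [he]
      exact h2
    · rintro ⟨m, n⟩ hmn
      rw [if_neg]
      rintro rfl
      exact hmn ⟨m, rfl⟩
  have h2 : HasSum (fun p : ℤ × ℤ => if p.1 = 0 ∧ p.2 ≠ 0 then f p else 0)
      ((2 * Gs (y / X) : ℝ) : ℂ) := by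
    have hinj : Function.Injective (fun n : ℤ => ((0, n) : ℤ × ℤ)) := fun a b h =>
      congrArg Prod.snd h
    rw [← hinj.hasSum_iff]
    · have h2 := Complex.hasSum_ofReal.mpr (hasSum_int_gauss (y / X) (by positivity))
      have h3 := h2.sub (hasSum_ite_eq (0 : ℤ) (1 : ℂ))
      have he : ((fun p : ℤ × ℤ => if p.1 = 0 ∧ p.2 ≠ 0 then f p else 0) ∘
          fun n : ℤ => ((0, n) : ℤ × ℤ)) =
          fun n : ℤ => ((Real.exp (-Real.pi * (y / X) * (n : ℝ) ^ 2) : ℝ) : ℂ) -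
            (if n = 0 then 1 else 0) := by
        funext n
        by_cases hn : n = 0
        · subst hn
          simp
        · simp only [Function.comp_apply, ne_eq, hn, not_false_eq_true, and_self, if_true, f2,
            if_false, sub_zero]
      have hv : ((2 * Gs (y / X) : ℝ) : ℂ) = ((1 + 2 * Gs (y / X) : ℝ) : ℂ) - 1 := by
        push_cast
        ring
      rw [he, hv]
      exact h3
    · rintro ⟨m, n⟩ hmn
      rw [if_neg]
      rintro ⟨hm, _⟩
      simp only at hm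
      exact hmn ⟨n, by rw [hm]⟩
  have h3 : HasSum (Aᶜ.indicator f) ((1 + 2 * Gs (y * X) + 2 * Gs (y / X) : ℝ) : ℂ) := by
    have h4 := h1.add h2
    have he : (fun p : ℤ × ℤ => (if p.2 = 0 then f p else 0) +
        (if p.1 = 0 ∧ p.2 ≠ 0 then f p else 0)) = Aᶜ.indicator f := by
      funext p
      by_cases hp1 : p.1 = 0 <;> by_cases hp2 : p.2 = 0 <;>
        simp [hA, hp1, hp2]
    rw [he] at h4
    convert h4 using 1
    push_cast
    ring
  have h4 : HasSum (A.indicator f)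
      (∑' p : {p : ℤ × ℤ // p.1 ≠ 0 ∧ p.2 ≠ 0}, term θ y (X : ℂ) p.1) := by
    rw [← hasSum_subtype_iff_indicator]
    exact (hs.subtype A).hasSum
  have h5 := h4.add h3
  have he : (fun p => A.indicator f p + Aᶜ.indicator f p) = f := by
    funext p
    exact congrFun (Set.indicator_self_add_compl A f) p
  rw [he] at h5
  exact h5.tsum_eq

theorem R_sub_W_eq (θ y u : ℝ) (hy : 0 < y) :
    R θ y 0 u - W θ y 0 u = (((1 / 2) * (Real.sqrt y *
      (1 + 2 * Gs (y * Real.exp u) + 2 * Gs (y / Real.exp u)) - Real.exp (|u| / 2)) : ℝ) : ℂ) := by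
  have hx : cexp ((u : ℂ) + ((0 : ℝ) : ℂ) * I) = ((Real.exp u : ℝ) : ℂ) := by
    rw [Complex.ofReal_zero, zero_mul, add_zero, Complex.ofReal_exp]
  have hc : cor 0 u = ((Real.exp (|u| / 2) : ℝ) : ℂ) := by
    unfold cor
    rw [Complex.ofReal_zero, zero_mul, add_zero]
    split_ifs with h
    · rw [abs_of_pos h]
      push_cast
      rfl
    · rw [abs_of_nonpos (not_lt.mp h)]
      push_cast
      congr 1
      ring
  unfold R W
  rw [hx, hc, S_real_eq θ y (Real.exp u) hy (Real.exp_pos u)]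
  push_cast
  ring

/-- `√y (1 + 2 Gs(y / X)) = √X (1 + 2 Gs(X / y))`. -/
theorem theta_div (y X : ℝ) (hy : 0 < y) (hX : 0 < X) :
    Real.sqrt y * (1 + 2 * Gs (y / X)) = Real.sqrt X * (1 + 2 * Gs (X / y)) := by
  rw [Gs_theta (y / X) (by positivity), Real.sqrt_div hy.le, one_div_div]
  have h1 := Real.sqrt_pos.mpr hy
  have h2 := Real.sqrt_pos.mpr hX
  field_simp

theorem sqrt_exp (u : ℝ) : Real.sqrt (Real.exp u) = Real.exp (u / 2) := by
  rw [show Real.exp u = Real.exp (u / 2) ^ 2 by rw [← Real.exp_nat_mul]; congr 1; push_cast; ring,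
    Real.sqrt_sq (Real.exp_pos _).le]

theorem R_main : ∃ C : ℝ, 0 < C ∧ ∀ θ y u : ℝ, 1 / 4 ≤ y →
    ‖R θ y 0 u - ((Real.exp (u / 2) * Gs (Real.exp u / y) : ℝ) : ℂ)‖ ≤
      C * Real.sqrt y * (if u ≤ 0 then 1 else Real.exp (-Real.exp u / 2)) := by
  obtain ⟨C₁, hC₁, hW⟩ := W_decay
  obtain ⟨C₂, hC₂, hG⟩ := Gs_exp
  refine ⟨C₁ + C₂ + 2, by linarith, fun θ y u hy => ?_⟩
  have hy0 : 0 < y := by linarith
  have hsy := Real.sqrt_pos.mpr hy0
  have hX := Real.exp_pos u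
  have hW' := hW θ y u hy
  have hth := theta_div y (Real.exp u) hy0 hX
  rw [sqrt_exp] at hth
  have hdec : R θ y 0 u - ((Real.exp (u / 2) * Gs (Real.exp u / y) : ℝ) : ℂ) =
      W θ y 0 u + (((1 / 2) * (Real.sqrt y *
      (1 + 2 * Gs (y * Real.exp u) + 2 * Gs (y / Real.exp u)) - Real.exp (|u| / 2)) -
        Real.exp (u / 2) * Gs (Real.exp u / y) : ℝ) : ℂ) := by
    have h1 := R_sub_W_eq θ y u hy0
    rw [Complex.ofReal_sub, ← h1]
    ring
  rw [hdec]
  refine (norm_add_le _ _).trans ?_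
  rw [Complex.norm_real, Real.norm_eq_abs]
  by_cases hu : u ≤ 0
  · rw [if_pos hu, mul_one]
    rw [abs_of_nonpos hu]
    have hX1 : Real.exp u ≤ 1 := Real.exp_le_one_iff.mpr hu
    have h1 : ‖W θ y 0 u‖ ≤ C₁ * Real.sqrt y := by
      refine hW'.trans ?_
      have h2 : Real.exp (-Real.exp |u| / 2) ≤ 1 := by
        rw [Real.exp_le_one_iff]
        have := Real.exp_pos |u|
        linarith
      have h3 : 0 ≤ C₁ * Real.sqrt y := by positivity
      nlinarith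
    -- the second theta relation
    have hth2 := theta_div y (1 / Real.exp u) hy0 (by positivity)
    rw [div_div_eq_mul_div, div_one, one_div, ← Real.exp_neg, sqrt_exp] at hth2
    have h4 : 0 ≤ Gs (Real.exp (-u) / y) := Gs_nonneg _
    have h5 : Gs (Real.exp (-u) / y) ≤ 1 / (2 * Real.sqrt (Real.exp (-u) / y)) :=
      Gs_le _ (div_pos (Real.exp_pos _) hy0)
    rw [Real.sqrt_div (Real.exp_pos _).le, sqrt_exp] at h5
    have h6 : Real.exp (-u / 2) * Gs (Real.exp (-u) / y) ≤ Real.sqrt y / 2 := by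
      have h7 := mul_le_mul_of_nonneg_left h5 (Real.exp_pos (-u / 2)).le
      refine h7.trans (le_of_eq ?_)
      have := Real.exp_pos (-u / 2)
      field_simp
    have h8 : Real.exp (u / 2) ≤ 1 := by
      rw [Real.exp_le_one_iff]
      linarith
    have h9 : 1 / 2 ≤ Real.sqrt y := by
      rw [show (1 / 2 : ℝ) = Real.sqrt (1 / 4) by
        rw [show (1 / 4 : ℝ) = (1 / 2) ^ 2 by norm_num, Real.sqrt_sq (by norm_num)]]
      exact Real.sqrt_le_sqrt hy
    have h10 : |1 / 2 * (Real.sqrt y * (1 + 2 * Gs (y * Real.exp u) + 2 * Gs (y / Real.exp u)) -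
        Real.exp (-u / 2)) - Real.exp (u / 2) * Gs (Real.exp u / y)| ≤ 2 * Real.sqrt y := by
      have h11 : 1 / 2 * (Real.sqrt y * (1 + 2 * Gs (y * Real.exp u) + 2 * Gs (y / Real.exp u)) -
          Real.exp (-u / 2)) - Real.exp (u / 2) * Gs (Real.exp u / y) =
          1 / 2 * (Real.exp (u / 2) + 2 * (Real.exp (-u / 2) * Gs (Real.exp (-u) / y)) -
            Real.sqrt y) := by
        linarith
      rw [h11]
      have h12 : 0 ≤ Real.exp (-u / 2) * Gs (Real.exp (-u) / y) :=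
        mul_nonneg (Real.exp_pos _).le h4
      have h13 := Real.exp_pos (u / 2)
      rw [abs_le]
      constructor <;> linarith
    have h14 : 0 ≤ C₂ * Real.sqrt y := by positivity
    nlinarith
  · rw [if_neg hu]
    rw [not_le] at hu
    rw [abs_of_pos hu] at hW' ⊢
    have hX1 : 1 ≤ Real.exp u := Real.one_le_exp hu.le
    have h1 : 1 / 2 * (Real.sqrt y * (1 + 2 * Gs (y * Real.exp u) + 2 * Gs (y / Real.exp u)) -
        Real.exp (u / 2)) - Real.exp (u / 2) * Gs (Real.exp u / y) =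
        Real.sqrt y * Gs (y * Real.exp u) := by
      linarith
    rw [h1, abs_of_nonneg (mul_nonneg hsy.le (Gs_nonneg _))]
    have h2 : Gs (y * Real.exp u) ≤ C₂ * Real.exp (-Real.exp u / 2) := by
      refine (hG (y * Real.exp u) (by nlinarith)).trans ?_
      refine mul_le_mul_of_nonneg_left ?_ hC₂.le
      rw [Real.exp_le_exp]
      have := Real.pi_gt_three
      nlinarith [mul_pos hy0 hX]
    have h3 : Real.sqrt y * Gs (y * Real.exp u) ≤
        Real.sqrt y * (C₂ * Real.exp (-Real.exp u / 2)) := mul_le_mul_of_nonneg_left h2 hsy.le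
    have h4 : 0 ≤ Real.sqrt y * Real.exp (-Real.exp u / 2) := by positivity
    nlinarith

end Pool.Hhelper76.CL
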