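import Pool.Agent.Hhelper76.CL.Defs

/-!
# CL module A (Rows): Poisson summation in the rows

PAPER PROOF.
`summable_term`: `‖term‖ = exp(-π y (Re x · n² + Re(1/x) · k²))`, with `Re x > 0`,
`Re (1/x) = Re x / ‖x‖² > 0`: product of two convergent Gaussian sums.
`S_inv`: `term θ y x⁻¹ (n, k) = term θ y x (k, n)`; reindex by `Equiv.prodComm`.
`S_real`: for real `r > 0`, `conj (term θ y r (n,k)) = term θ y r (-n, k)`; reindex.
`rows`: let `g(m,n) = exp(-π x q(θ,y,(m,n)))`, `q ≥ 0`, `g(-m,-n) = g(m,n)`, `g(0,0) = 1`; `ℤ × ℤ` is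
the disjoint union of `{0}`, `Half` and `-Half`, so `∑_{ℤ×ℤ} g = 1 + 2 ∑_{Half} g`. For fixed `n`
the sum over `m` is `∑_m exp(-π (x/y) (m + nθ)²)`, which by Poisson
(`Complex.tsum_exp_neg_quadratic`, or `jacobiTheta₂_functional_equation`) is
`(y/x)^(1/2) ∑_k exp(-π k² y / x) e(k n θ)`; the remaining factor is `exp(-π x n² y)`. Here
`(y/x)^(1/2) = √y / x^(1/2)` (principal branches, `y > 0`, `Re x > 0`). Summability of `g`:
`‖g‖ = exp(-π Re x q)`, and `q ≥ δ (m² + n²)` for some `δ = δ(θ,y) > 0`.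
-/

open Complex MeasureTheory Pool.Hhelper85.CZ

namespace Pool.Hhelper76.CL

/-- One-dimensional Gaussian sums converge. -/
theorem summable_gauss (c : ℝ) (hc : 0 < c) :
    Summable (fun n : ℤ => Real.exp (-(c * (n : ℝ) ^ 2))) := by
  have h := ((summable_jacobiTheta₂_term_iff 0 (I * (c / Real.pi : ℝ))).mpr (by
    rw [I_mul_im, ofReal_re]
    positivity)).norm
  refine h.congr fun n => ?_
  rw [norm_jacobiTheta₂_term]
  congr 1
  rw [I_mul_im, ofReal_re, zero_im]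
  field_simp
  ring

/-- Two-dimensional Gaussian sums converge. -/
theorem summable_gauss₂ (c d : ℝ) (hc : 0 < c) (hd : 0 < d) :
    Summable (fun p : ℤ × ℤ => Real.exp (-(c * (p.1 : ℝ) ^ 2 + d * (p.2 : ℝ) ^ 2))) := by
  have h := (summable_gauss c hc).mul_of_nonneg (summable_gauss d hd)
    (fun _ => (Real.exp_pos _).le) (fun _ => (Real.exp_pos _).le)
  refine h.congr fun p => ?_
  rw [← Real.exp_add]
  congr 1
  ring

theorem inv_re_pos (x : ℂ) (hx : 0 < x.re) : 0 < (x⁻¹).re := by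
  rw [inv_re]
  have h0 : x ≠ 0 := by
    rintro rfl
    simp at hx
  exact div_pos hx (normSq_pos.mpr h0)

theorem norm_term (θ y : ℝ) (x : ℂ) (p : ℤ × ℤ) :
    ‖term θ y x p‖ =
      Real.exp (-(Real.pi * y * x.re * (p.1 : ℝ) ^ 2 + Real.pi * y * (x⁻¹).re * (p.2 : ℝ) ^ 2)) := by
  have h1 : cexp (2 * Real.pi * I * ((p.1 : ℂ) * (p.2 : ℂ) * (θ : ℂ))) =
      cexp (((2 * Real.pi * ((p.1 : ℝ) * (p.2 : ℝ) * θ) : ℝ) : ℂ) * I) := by
    congr 1
    push_cast
    ring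
  have h2 : -(Real.pi * y : ℝ) * (x * (p.1 : ℂ) ^ 2 + (p.2 : ℂ) ^ 2 / x) =
      ((-(Real.pi * y * (p.1 : ℝ) ^ 2) : ℝ) : ℂ) * x +
        ((-(Real.pi * y * (p.2 : ℝ) ^ 2) : ℝ) : ℂ) * x⁻¹ := by
    push_cast
    rw [div_eq_mul_inv]
    ring
  rw [term, norm_mul, h1, norm_exp_ofReal_mul_I, mul_one, norm_exp, h2, add_re, re_ofReal_mul,
    re_ofReal_mul]
  congr 1
  ring

theorem summable_term (θ y : ℝ) (hy : 0 < y) (x : ℂ) (hx : 0 < x.re) :
    Summable (fun p : ℤ × ℤ => ‖term θ y x p‖) := by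
  have h1 := inv_re_pos x hx
  have hpi := Real.pi_pos
  refine (summable_gauss₂ (Real.pi * y * x.re) (Real.pi * y * (x⁻¹).re) (by positivity)
    (by positivity)).congr fun p => ?_
  rw [norm_term]

theorem S_inv (θ y : ℝ) (x : ℂ) (hx : x ≠ 0) : S θ y x⁻¹ = S θ y x := by
  rw [S, S, ← (Equiv.prodComm ℤ ℤ).tsum_eq (fun p => term θ y x⁻¹ p)]
  refine tsum_congr fun p => ?_
  simp only [Equiv.prodComm_apply, term, Prod.fst_swap, Prod.snd_swap]
  congr 2
  · field_simp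
    ring
  · ring

theorem S_real (θ y r : ℝ) (hy : 0 < y) (hr : 0 < r) : (S θ y (r : ℂ)).im = 0 := by
  rw [← conj_eq_iff_im, S, conj_tsum,
    ← ((Equiv.neg ℤ).prodCongr (Equiv.refl ℤ)).tsum_eq (fun p => term θ y (r : ℂ) p)]
  refine tsum_congr fun p => ?_
  simp only [term, map_mul, ← exp_conj, map_add, map_neg, map_div₀, map_pow, conj_ofReal, conj_I,
    map_intCast, Equiv.prodCongr_apply, Prod.map_fst, Prod.map_snd, Equiv.neg_apply,
    Equiv.refl_apply, map_ofNat]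
  congr 2
  · push_cast
    ring
  · push_cast
    ring

theorem q_nonneg (θ y : ℝ) (hy : 0 < y) (p : ℤ × ℤ) : 0 ≤ q θ y p := by
  rw [q]
  positivity

/-- Lower bound for the normalised form by the standard form. -/
theorem q_lower (θ y : ℝ) (hy : 0 < y) : ∃ δ : ℝ, 0 < δ ∧ ∀ p : ℤ × ℤ,
    δ * ((p.1 : ℝ) ^ 2 + (p.2 : ℝ) ^ 2) ≤ q θ y p := by
  refine ⟨((2 + (2 * θ ^ 2 + 1) / y ^ 2) * y)⁻¹, by positivity, fun p => ?_⟩
  rw [inv_mul_le_iff₀ (by positivity), q]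
  have h1 : (p.1 : ℝ) ^ 2 ≤ 2 * ((p.1 : ℝ) + p.2 * θ) ^ 2 + 2 * θ ^ 2 * (p.2 : ℝ) ^ 2 := by
    nlinarith [sq_nonneg ((p.1 : ℝ) + 2 * (p.2 * θ))]
  have h2 : (2 + (2 * θ ^ 2 + 1) / y ^ 2) * y *
      ((((p.1 : ℝ) + p.2 * θ) ^ 2 + (p.2 : ℝ) ^ 2 * y ^ 2) / y) =
      2 * ((p.1 : ℝ) + p.2 * θ) ^ 2 + 2 * ((p.2 : ℝ) ^ 2 * y ^ 2) +
        (2 * θ ^ 2 + 1) / y ^ 2 * ((p.1 : ℝ) + p.2 * θ) ^ 2 +
        (2 * θ ^ 2 + 1) * (p.2 : ℝ) ^ 2 := by
    field_simp
    ring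
  rw [h2]
  have h3 : 0 ≤ (2 * θ ^ 2 + 1) / y ^ 2 * ((p.1 : ℝ) + p.2 * θ) ^ 2 := by positivity
  have h4 : 0 ≤ 2 * ((p.2 : ℝ) ^ 2 * y ^ 2) := by positivity
  nlinarith

theorem q_pos (θ y : ℝ) (hy : 0 < y) (p : ℤ × ℤ) (hp : Half p) : 0 < q θ y p := by
  obtain ⟨δ, hδ, h⟩ := q_lower θ y hy
  refine lt_of_lt_of_le ?_ (h p)
  apply mul_pos hδ
  rcases hp with h | ⟨_, h⟩
  · have : (p.2 : ℝ) ≠ 0 := by exact_mod_cast h.ne'
    positivity
  · have : (p.1 : ℝ) ≠ 0 := by exact_mod_cast h.ne'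
    positivity

/-- The rows, summed over the whole lattice. -/
theorem summable_g (θ y : ℝ) (hy : 0 < y) (x : ℂ) (hx : 0 < x.re) :
    Summable (fun p : ℤ × ℤ => ‖cexp (-(Real.pi * q θ y p : ℝ) * x)‖) := by
  obtain ⟨δ, hδ, h⟩ := q_lower θ y hy
  have hpi := Real.pi_pos
  refine Summable.of_nonneg_of_le (fun _ => norm_nonneg _) (fun p => ?_)
    (summable_gauss₂ (Real.pi * δ * x.re) (Real.pi * δ * x.re) (by positivity) (by positivity))
  rw [norm_exp, ← ofReal_neg, re_ofReal_mul]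
  apply Real.exp_le_exp.mpr
  have h1 := mul_le_mul_of_nonneg_left (h p) (by positivity : 0 ≤ Real.pi * x.re)
  nlinarith

theorem summable_rows (θ y : ℝ) (hy : 0 < y) (x : ℂ) (hx : 0 < x.re) :
    Summable (fun p : {p : ℤ × ℤ // Half p} => ‖cexp (-(Real.pi * q θ y p.1 : ℝ) * x)‖) :=
  (summable_g θ y hy x hx).comp_injective Subtype.val_injective

theorem half_trichotomy (p : ℤ × ℤ) : Half p ∨ Half (-p) ∨ p = 0 := by
  obtain ⟨m, n⟩ := p
  simp only [Half, Prod.snd_neg, Prod.fst_neg, Prod.mk_eq_zero]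
  omega

theorem half_neg (p : ℤ × ℤ) (h : Half p) : ¬ Half (-p) ∧ p ≠ 0 := by
  obtain ⟨m, n⟩ := p
  simp only [Half, Prod.snd_neg, Prod.fst_neg, ne_eq, Prod.mk_eq_zero] at h ⊢
  omega

/-- An even summable function on `ℤ × ℤ`. -/
theorem tsum_half (g : ℤ × ℤ → ℂ) (hg : Summable g) (he : ∀ p, g (-p) = g p) :
    ∑' p, g p = g 0 + 2 * ∑' p : {p : ℤ × ℤ // Half p}, g p.1 := by
  have hs : ∑' p : {p : ℤ × ℤ // Half p}, g p.1 = ∑' p, {p | Half p}.indicator g p :=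
    tsum_subtype {p | Half p} g
  have hs' : ∑' p, {p | Half (-p)}.indicator g p = ∑' p, {p | Half p}.indicator g p := by
    rw [← (Equiv.neg (ℤ × ℤ)).tsum_eq (fun p => {p | Half p}.indicator g p)]
    refine tsum_congr fun p => ?_
    rw [Equiv.neg_apply]
    by_cases h : Half (-p)
    · rw [Set.indicator_of_mem (by exact h), Set.indicator_of_mem (by exact h), he]
    · rw [Set.indicator_of_notMem (by exact h), Set.indicator_of_notMem (by exact h)]
  have h0 : ∑' p, ({0} : Set (ℤ × ℤ)).indicator g p = g 0 := by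
    rw [tsum_eq_single 0]
    · simp
    · intro p hp
      simp [hp]
  have hsum : ∀ p, g p = ({0} : Set (ℤ × ℤ)).indicator g p + ({p | Half p}.indicator g p +
      {p | Half (-p)}.indicator g p) := by
    intro p
    by_cases h1 : Half p
    · have h2 := half_neg p h1
      simp [Set.indicator, h1, h2.1, h2.2]
    · by_cases h2 : Half (-p)
      · have h3 : p ≠ 0 := by
          rintro rfl
          exact (half_neg _ h2).2 (by simp)
        simp [Set.indicator, h1, h2, h3]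
      · have h3 : p = 0 := by
          rcases half_trichotomy p with h | h | h
          · exact absurd h h1
          · exact absurd h h2
          · exact h
        subst h3
        simp [Set.indicator, h1]
  rw [tsum_congr hsum, Summable.tsum_add (hg.indicator _) ((hg.indicator _).add (hg.indicator _)),
    Summable.tsum_add (hg.indicator _) (hg.indicator _), h0, hs', hs]
  ring

theorem ofReal_mul_cpow (a : ℝ) (ha : 0 < a) (z : ℂ) (hz : z ≠ 0) (r : ℂ) :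
    ((a : ℂ) * z) ^ r = (a : ℂ) ^ r * z ^ r := by
  have ha' : (a : ℂ) ≠ 0 := by exact_mod_cast ha.ne'
  rw [cpow_def_of_ne_zero (mul_ne_zero ha' hz), cpow_def_of_ne_zero ha', cpow_def_of_ne_zero hz,
    log_ofReal_mul ha hz, ← exp_add, ofReal_log ha.le]
  congr 1
  ring

theorem sqrt_div_cpow (y : ℝ) (hy : 0 < y) (x : ℂ) (hx : 0 < x.re) :
    ((y : ℂ) / x) ^ (1 / 2 : ℂ) * x ^ (1 / 2 : ℂ) = (Real.sqrt y : ℂ) := by
  have harg : x.arg ≠ Real.pi := by
    intro h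
    rw [arg_eq_pi_iff] at h
    linarith [h.1]
  have hx0 : x ≠ 0 := by
    rintro rfl
    simp at hx
  have h1 : x ^ (1 / 2 : ℂ) ≠ 0 := by
    rw [cpow_def_of_ne_zero hx0]
    exact exp_ne_zero _
  rw [div_eq_mul_inv, ofReal_mul_cpow y hy _ (inv_ne_zero hx0), inv_cpow _ _ harg, mul_assoc,
    inv_mul_cancel₀ h1, mul_one, Real.sqrt_eq_rpow, ofReal_cpow hy.le]
  norm_num

/-- `x^(1/2) (1/2 + ∑_{Half} exp(-π x q)) = √y S / 2`. -/
theorem rows (θ y : ℝ) (hy : 0 < y) (x : ℂ) (hx : 0 < x.re) :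
    x ^ (1 / 2 : ℂ) * (1 / 2 + ∑' p : {p : ℤ × ℤ // Half p},
      cexp (-(Real.pi * q θ y p.1 : ℝ) * x)) = (1 / 2) * ((Real.sqrt y : ℂ) * S θ y x) := by
  have hx0 : x ≠ 0 := by
    rintro rfl
    simp at hx
  have hy0 : (y : ℂ) ≠ 0 := by exact_mod_cast hy.ne'
  have hg := (summable_g θ y hy x hx).of_norm
  have hhalf := tsum_half (fun p : ℤ × ℤ => cexp (-(Real.pi * q θ y p : ℝ) * x)) hg (by
    intro p
    have : q θ y (-p) = q θ y p := by
      simp only [q, Prod.fst_neg, Prod.snd_neg]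
      push_cast
      ring
    simp only [this])
  have hq0 : q θ y 0 = 0 := by simp [q]
  simp only [hq0, mul_zero, ofReal_zero, neg_zero, zero_mul, exp_zero] at hhalf
  have hre : 0 < ((y : ℂ) / x).re := by
    rw [div_eq_mul_inv, re_ofReal_mul]
    exact mul_pos hy (inv_re_pos x hx)
  have hc : ((y : ℂ) / x) ^ (1 / 2 : ℂ) ≠ 0 := by
    rw [cpow_def_of_ne_zero (div_ne_zero hy0 hx0)]
    exact exp_ne_zero _
  -- the double series, summed over `k` first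
  have hS : ((y : ℂ) / x) ^ (1 / 2 : ℂ) * S θ y x =
      ∑' p : ℤ × ℤ, cexp (-(Real.pi * q θ y p : ℝ) * x) := by
    have h1 : S θ y x = ∑' n : ℤ, ∑' k : ℤ, term θ y x (n, k) :=
      (summable_term θ y hy x hx).of_norm.tsum_prod
    have h2 : ∑' p : ℤ × ℤ, cexp (-(Real.pi * q θ y p : ℝ) * x) =
        ∑' n : ℤ, ∑' m : ℤ, cexp (-(Real.pi * q θ y (m, n) : ℝ) * x) := by
      rw [← (Equiv.prodComm ℤ ℤ).tsum_eq (fun p => cexp (-(Real.pi * q θ y p : ℝ) * x))]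
      have h3 : Summable (fun p : ℤ × ℤ =>
          cexp (-(Real.pi * q θ y ((Equiv.prodComm ℤ ℤ) p) : ℝ) * x)) :=
        (Equiv.prodComm ℤ ℤ).summable_iff.mpr hg
      exact h3.tsum_prod
    rw [h1, h2, ← tsum_mul_left]
    rw [← (Equiv.neg ℤ).tsum_eq
      (fun n : ℤ => ∑' m : ℤ, cexp (-(Real.pi * q θ y (m, n) : ℝ) * x))]
    refine tsum_congr fun n => ?_
    have hP := Complex.tsum_exp_neg_quadratic hre (I * ((n : ℂ) * θ))
    have h4 : ∑' k : ℤ, term θ y x (n, k) = cexp (-(Real.pi * y : ℝ) * (x * (n : ℂ) ^ 2)) *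
        ∑' k : ℤ, cexp (-Real.pi * ((y : ℂ) / x) * (k : ℂ) ^ 2 +
          2 * Real.pi * (I * ((n : ℂ) * θ)) * k) := by
      rw [← tsum_mul_left]
      refine tsum_congr fun k => ?_
      rw [term, ← exp_add, ← exp_add]
      congr 1
      push_cast
      ring
    rw [h4, hP, ← mul_assoc, ← mul_assoc, mul_comm _ (cexp _), mul_assoc, mul_assoc,
      ← mul_assoc (((y : ℂ) / x) ^ (1 / 2 : ℂ)), mul_one_div_cancel hc, one_mul,
      ← tsum_mul_left]
    refine tsum_congr fun m => ?_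
    rw [← exp_add]
    congr 1
    simp only [q, Equiv.neg_apply]
    have hI : I * (I * ((n : ℂ) * θ)) = -((n : ℂ) * θ) := by
      rw [← mul_assoc, I_mul_I]
      ring
    rw [hI]
    push_cast
    field_simp
    ring
  have h5 : ∑' p : {p : ℤ × ℤ // Half p}, cexp (-(Real.pi * q θ y p.1 : ℝ) * x) =
      ((∑' p : ℤ × ℤ, cexp (-(Real.pi * q θ y p : ℝ) * x)) - 1) / 2 := by
    rw [hhalf]
    ring
  rw [h5, ← hS, ← sqrt_div_cpow y hy x hx]
  ring

end Pool.Hhelper76.CL
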